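import Mathlib

-- part Pool.Agent.P.MP_53fdf1_co.Check
section

set_option autoImplicit false

namespace Pool.Agent.P.MP_53fdf1_co

/-- eight numbers, one per vertex of a parameter box -/
structure V8 where
  (a0 a1 a2 a3 a4 a5 a6 a7 : ℕ)

/-- the running constant and the eight running cut sums -/
structure St where
  (c : ℕ) (v : V8)

/-- the four offsets of a rectangle -/
structure V4 where
  (pp pm qp qm : ℕ)

/-- data of a parameter box -/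
structure Ctx where
  (tl th tc tol : ℕ) (c d ml mh vx vy : V4) (PP PM QP QM : V8)

/-- evaluate `n` before passing it on -/
noncomputable def frc {α : Type} (n : ℕ) (k : ℕ → α) : α :=
  @Nat.rec (fun _ => α) (k n) (fun m _ => k m) (Nat.succ n)

noncomputable def andb (a b : Bool) : Bool := @Bool.rec (fun _ => Bool) false b a

noncomputable def orb (a b : Bool) : Bool := @Bool.rec (fun _ => Bool) b true a

noncomputable def frb {α : Type} (b : Bool) (k : Bool → α) : α :=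
  @Bool.rec (fun _ => α) (k false) (k true) b

noncomputable def mk4 {α : Type} (a0 a1 a2 a3 : ℕ) (k : ℕ → ℕ → ℕ → ℕ → α) : α :=
  frc a0 fun b0 => frc a1 fun b1 => frc a2 fun b2 => frc a3 (k b0 b1 b2)

noncomputable def mk8 {α : Type} (a0 a1 a2 a3 a4 a5 a6 a7 : ℕ) (k : V8 → α) : α :=
  mk4 a0 a1 a2 a3 fun b0 b1 b2 b3 => mk4 a4 a5 a6 a7 fun b4 b5 b6 b7 => k ⟨b0, b1, b2, b3, b4, b5, b6, b7⟩

def cA (a c u0 u1 p : ℕ) : ℕ := Nat.add a (Nat.mul c (Nat.add (Nat.sub u0 p) (Nat.sub u1 p)))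

def cB (a c u0 u1 p : ℕ) : ℕ := Nat.add a (Nat.mul c (Nat.add (Nat.sub p u0) (Nat.sub p u1)))

noncomputable def addG (f : ℕ → ℕ → ℕ → ℕ → ℕ → ℕ) (c u0 u1 w0 w1 : ℕ) (P v : V8)
    (k : V8 → St) : St :=
  @V8.rec (fun _ => St) (fun p0 p1 p2 p3 p4 p5 p6 p7 =>
    @V8.rec (fun _ => St) (fun a0 a1 a2 a3 a4 a5 a6 a7 =>
      mk8 (f a0 c u0 u1 p0) (f a1 c u0 u1 p1) (f a2 c u0 u1 p2) (f a3 c u0 u1 p3)
        (f a4 c w0 w1 p4) (f a5 c w0 w1 p5) (f a6 c w0 w1 p6) (f a7 c w0 w1 p7) k) v) P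

def big (x : ℕ) : ℕ := Nat.add (nat_lit 17179869184) (Nat.mul x (nat_lit 1048576))

def up (x t y : ℕ) : ℕ := Nat.add (big x) (Nat.mul t y)

def dn (y t x : ℕ) : ℕ := Nat.sub (big y) (Nat.mul t x)

noncomputable def addH (f : ℕ → ℕ → ℕ → ℕ → ℕ → ℕ) (g : ℕ → ℕ → ℕ → ℕ) (tl th c x y0 y1 : ℕ) (P v : V8)
    (k : V8 → St) : St :=
  addG f c (g x tl y0) (g x tl y1) (g x th y0) (g x th y1) P v k

noncomputable def opt (u : Bool) (f : V8 → (V8 → St) → St) (v : V8) (k : V8 → St) : St :=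
  @Bool.rec (fun _ => St) (k v) (f v k) u

noncomputable def accept2 (C : Ctx) (x0 x1 y0 y1 : ℕ) (u0 u1 u2 u3 : Bool) (v : V8) (cx cy c : ℕ) : St :=
  opt u0 (addH cA up C.tl C.th cy x1 y0 y1 C.PP) v fun v =>
  opt u1 (addH cB up C.tl C.th cy x0 y0 y1 C.PM) v fun v =>
  opt u2 (addH cA dn C.tl C.th cx y1 x0 x1 C.QP) v fun v =>
  opt u3 (addH cB dn C.tl C.th cx y0 x0 x1 C.QM) v (St.mk c)

noncomputable def accept (C : Ctx) (w x0 x1 y0 y1 : ℕ) (u0 u1 u2 u3 : Bool) (s : St) : St :=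
  @St.rec (fun _ => St) (fun c v =>
    frc (Nat.add c (Nat.mul (Nat.mul (Nat.mul w (Nat.sub y1 y0)) (Nat.sub x1 x0)) (nat_lit 2097152)))
      (accept2 C x0 x1 y0 y1 u0 u1 u2 u3 v (Nat.mul w (Nat.sub x1 x0)) (Nat.mul w (Nat.sub y1 y0)))) s

noncomputable def tr (tol a b cand alt : ℕ) : ℕ :=
  @Bool.rec (fun _ => ℕ) alt
    (@Bool.rec (fun _ => ℕ) alt cand (Nat.ble (Nat.succ (Nat.add cand tol)) b))
    (Nat.ble (Nat.succ (Nat.add a tol)) cand)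

noncomputable def sel (v : V4) (p q : Bool) : ℕ :=
  @Bool.rec (fun _ => ℕ) (@Bool.rec (fun _ => ℕ) v.pp v.pm q) (@Bool.rec (fun _ => ℕ) v.qp v.qm q) p

noncomputable def twoY (C : Ctx) (a b p x0 x1 alt : ℕ) : ℕ :=
  tr C.tol a b (Nat.div (Nat.sub p (big x0)) C.tc) (tr C.tol a b (Nat.div (Nat.sub p (big x1)) C.tc) alt)

noncomputable def twoX (C : Ctx) (a b p y0 y1 alt : ℕ) : ℕ :=
  tr C.tol a b (Nat.div (Nat.sub (big y0) p) C.tc) (tr C.tol a b (Nat.div (Nat.sub (big y1) p) C.tc) alt)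

noncomputable def opn (u : Bool) (f : ℕ → ℕ) (alt : ℕ) : ℕ := @Bool.rec (fun _ => ℕ) alt (f alt) u

noncomputable def vtx (tol a b : ℕ) (v : V4) (u0 u1 u2 u3 : Bool) : ℕ :=
  @Bool.rec (fun _ => ℕ) (nat_lit 0) (tr tol a b (sel v u0 u2) (nat_lit 0)) (andb (orb u0 u1) (orb u2 u3))

noncomputable def candY (C : Ctx) (x0 x1 y0 y1 : ℕ) (u0 u1 u2 u3 : Bool) : ℕ :=
  opn u0 (twoY C y0 y1 C.c.pp x0 x1) (opn u1 (twoY C y0 y1 C.c.pm x0 x1) (vtx C.tol y0 y1 C.vy u0 u1 u2 u3))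

noncomputable def candX (C : Ctx) (x0 x1 y0 y1 : ℕ) (u0 u1 u2 u3 : Bool) : ℕ :=
  opn u2 (twoX C x0 x1 C.c.qp y0 y1) (opn u3 (twoX C x0 x1 C.c.qm y0 y1) (vtx C.tol x0 x1 C.vx u0 u1 u2 u3))

noncomputable def seq2 (s : St) (k : St → St) : St :=
  @St.rec (fun _ => St) (fun c v => k ⟨c, v⟩) s

noncomputable def btw (a m b : ℕ) : Bool := andb (Nat.ble (Nat.succ a) m) (Nat.ble (Nat.succ m) b)

noncomputable def splitX (C : Ctx) (w : ℕ) (ih : ℕ → ℕ → ℕ → ℕ → St → St)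
    (x0 x1 y0 y1 : ℕ) (u0 u1 u2 u3 : Bool) (s : St) (xs : ℕ) : St :=
  @Bool.rec (fun _ => St) (accept C w x0 x1 y0 y1 u0 u1 u2 u3 s)
    (seq2 (ih x0 xs y0 y1 s) (ih xs x1 y0 y1)) (btw x0 xs x1)

noncomputable def splitY (C : Ctx) (w : ℕ) (ih : ℕ → ℕ → ℕ → ℕ → St → St)
    (x0 x1 y0 y1 : ℕ) (u0 u1 u2 u3 : Bool) (s : St) (ys : ℕ) : St :=
  @Bool.rec (fun _ => St)
    (frc (candX C x0 x1 y0 y1 u0 u1 u2 u3) (splitX C w ih x0 x1 y0 y1 u0 u1 u2 u3 s))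
    (seq2 (ih x0 x1 y0 ys s) (ih x0 x1 ys y1)) (btw y0 ys y1)

noncomputable def split (C : Ctx) (w : ℕ) (ih : ℕ → ℕ → ℕ → ℕ → St → St)
    (x0 x1 y0 y1 : ℕ) (u0 u1 u2 u3 : Bool) (s : St) : St :=
  frc (candY C x0 x1 y0 y1 u0 u1 u2 u3) (splitY C w ih x0 x1 y0 y1 u0 u1 u2 u3 s)

noncomputable def dropT (tc : ℕ) (d : V4) (x0 x1 y0 y1 : ℕ) : Bool :=
  orb (Nat.ble d.pp (up x0 tc y0)) (orb (Nat.ble (up x1 tc y1) d.pm)
    (orb (Nat.ble d.qp (dn y0 tc x1)) (Nat.ble (dn y1 tc x0) d.qm)))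

/-- `false` exactly when both comparisons hold -/
noncomputable def nand (a b c d : ℕ) : Bool :=
  @Bool.rec (fun _ => Bool) true (@Bool.rec (fun _ => Bool) true false (Nat.ble c d)) (Nat.ble a b)

noncomputable def flags (C : Ctx) (k : ℕ → ℕ → ℕ → ℕ → Bool → Bool → Bool → Bool → St → St)
    (x0 x1 y0 y1 : ℕ) (s : St) : St :=
  frb (nand (up x1 C.tl y1) C.ml.pp (up x1 C.th y1) C.mh.pp) fun u0 =>
  frb (nand C.ml.pm (up x0 C.tl y0) C.mh.pm (up x0 C.th y0)) fun u1 =>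
  frb (nand (dn y1 C.tl x0) C.ml.qp (dn y1 C.th x0) C.mh.qp) fun u2 =>
  frb (nand C.ml.qm (dn y0 C.tl x1) C.mh.qm (dn y0 C.th x1)) fun u3 => k x0 x1 y0 y1 u0 u1 u2 u3 s

noncomputable def step (C : Ctx) (k : ℕ → ℕ → ℕ → ℕ → Bool → Bool → Bool → Bool → St → St)
    (x0 x1 y0 y1 : ℕ) (s : St) : St :=
  @Bool.rec (fun _ => St) (flags C k x0 x1 y0 y1 s) s (dropT C.tc C.d x0 x1 y0 y1)

noncomputable def plan (C : Ctx) (w fuel : ℕ) : ℕ → ℕ → ℕ → ℕ → St → St :=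
  @Nat.rec (fun _ => ℕ → ℕ → ℕ → ℕ → St → St) (step C (accept C w))
    (fun _ ih => step C (split C w ih)) fuel

/-- weighted cells -/
inductive CL where
  | nil : CL
  | cons : ℕ → ℕ → ℕ → ℕ → ℕ → CL → CL

noncomputable def run (C : Ctx) (l : CL) : St → St :=
  @CL.rec (fun _ => St → St) (fun s => s)
    (fun w x0 x1 y0 y1 _ ih s => seq2 (plan C w (nat_lit 6) x0 x1 y0 y1 s) ih) l

def mn (a b : ℕ) : ℕ := Nat.sub a (Nat.sub a b)

def mx (a b : ℕ) : ℕ := Nat.add a (Nat.sub b a)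

/-- the six constants of a tile -/
structure Ty where
  (b bb a1 a2 a3 a4 : ℕ)

def rad (al be t : ℕ) : ℕ := Nat.add (Nat.mul al (nat_lit 1024)) (Nat.mul be t)

def vP (y : Ty) (al be t s r : ℕ) : ℕ :=
  Nat.add (Nat.add (Nat.add (nat_lit 20401094656)
    (Nat.mul (Nat.add y.a1 (Nat.mul y.b s)) (nat_lit 4194304)))
    (Nat.mul t (Nat.add (Nat.mul (Nat.add y.a2 (Nat.mul y.b r)) (nat_lit 4096)) (nat_lit 3145728))))
    (Nat.mul (Nat.add y.a3 (Nat.mul y.bb s)) (rad al be t))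

def vQ (y : Ty) (al be t s r : ℕ) : ℕ :=
  Nat.sub (Nat.add (Nat.add (nat_lit 20401094656)
    (Nat.mul (Nat.add y.a2 (Nat.mul y.b r)) (nat_lit 4194304)))
    (Nat.mul (Nat.add y.a4 (Nat.mul y.bb r)) (rad al be t)))
    (Nat.mul t (Nat.add (Nat.mul (Nat.add y.a1 (Nat.mul y.b s)) (nat_lit 4096)) (nat_lit 3145728)))

noncomputable def all8 {α : Type} (f : ℕ → ℕ → ℕ → ℕ) (tl th sl sh rl rh : ℕ) (k : V8 → α) : α :=
  mk8 (f tl sl rl) (f tl sh rl) (f tl sl rh) (f tl sh rh) (f th sl rl) (f th sh rl) (f th sl rh)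
    (f th sh rh) k

noncomputable def low8 {α : Type} (P : V8) (dl dh : ℕ) (k : V8 → α) : α :=
  mk8 (Nat.sub P.a0 dl) (Nat.sub P.a1 dl) (Nat.sub P.a2 dl) (Nat.sub P.a3 dl) (Nat.sub P.a4 dh)
    (Nat.sub P.a5 dh) (Nat.sub P.a6 dh) (Nat.sub P.a7 dh) k

def loG (f : ℕ → ℕ → ℕ) (P : V8) : ℕ := f (f P.a0 P.a1) (f P.a2 P.a3)

def hiG (f : ℕ → ℕ → ℕ) (P : V8) : ℕ := f (f P.a4 P.a5) (f P.a6 P.a7)

def cY (tc den P Q : ℕ) : ℕ :=
  Nat.div (Nat.sub (Nat.add (Nat.mul Q (nat_lit 1048576)) (Nat.mul tc P))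
    (Nat.mul (nat_lit 17179869184) (Nat.add (nat_lit 1048576) tc))) den

def cX (tc den P Q : ℕ) : ℕ :=
  Nat.div (Nat.sub (Nat.add (Nat.mul P (nat_lit 1048576)) (Nat.mul tc (nat_lit 17179869184)))
    (Nat.add (Nat.mul tc Q) (nat_lit 18014398509481984))) den

def hf (a b : ℕ) : ℕ := Nat.div (Nat.add a b) (nat_lit 2)

noncomputable def fin8 (M : ℕ) (s : St) : Bool :=
  @St.rec (fun _ => Bool) (fun c v => Nat.ble (Nat.add (mx (loG mx v) (hiG mx v)) M) c) s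

noncomputable def mkV {α : Type} (a0 a1 a2 a3 : ℕ) (k : V4 → α) : α :=
  mk4 a0 a1 a2 a3 fun b0 b1 b2 b3 => k ⟨b0, b1, b2, b3⟩

noncomputable def leaf4 (l : CL) (M tl th tc tol : ℕ) (PP PM QP QM : V8) (cp cm cq cn den : ℕ) : Bool :=
  mkV (loG mn PP) (loG mx PM) (loG mn QP) (loG mx QM) fun ml =>
  mkV (hiG mn PP) (hiG mx PM) (hiG mn QP) (hiG mx QM) fun mh =>
  mkV (cX tc den cm cn) (cX tc den cm cq) (cX tc den cp cn) (cX tc den cp cq) fun vx =>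
  mkV (cY tc den cm cn) (cY tc den cm cq) (cY tc den cp cn) (cY tc den cp cq) fun vy =>
  mkV (Nat.sub cp (Nat.mul tol (nat_lit 1048576))) (Nat.add cm (Nat.mul tol (nat_lit 1048576)))
    (Nat.sub cq (Nat.mul tol (nat_lit 1048576))) (Nat.add cn (Nat.mul tol (nat_lit 1048576))) fun d =>
  fin8 M (run ⟨tl, th, tc, tol, ⟨cp, cm, cq, cn⟩, d, ml, mh, vx, vy, PP, PM, QP, QM⟩ l
    ⟨nat_lit 0, ⟨nat_lit 0, nat_lit 0, nat_lit 0, nat_lit 0, nat_lit 0, nat_lit 0, nat_lit 0, nat_lit 0⟩⟩)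

noncomputable def leaf3 (l : CL) (M : ℕ) (PP PM QP QM : V8) (cp cq dc tl th tc tol : ℕ) : Bool :=
  mk4 cp (Nat.sub cp dc) cq (Nat.sub cq dc) fun cp cm cq cn =>
    frc (Nat.add (nat_lit 1099511627776) (Nat.mul tc tc)) (leaf4 l M tl th tc tol PP PM QP QM cp cm cq cn)

noncomputable def leaf2 (l : CL) (M : ℕ) (y : Ty) (tm tl th sl sh rl rh al be : ℕ) : Bool :=
  all8 (vP y al be) tl th sl sh rl rh fun PP => all8 (vQ y al be) tl th sl sh rl rh fun QP =>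
  low8 PP (Nat.mul (nat_lit 1024) (rad al be tl)) (Nat.mul (nat_lit 1024) (rad al be th)) fun PM =>
  low8 QP (Nat.mul (nat_lit 1024) (rad al be tl)) (Nat.mul (nat_lit 1024) (rad al be th)) fun QM =>
  mk4 (Nat.mul tl (nat_lit 1024)) (Nat.mul th (nat_lit 1024)) (Nat.mul tm (nat_lit 1024))
    (Nat.mul (nat_lit 2) (mx (Nat.sub sh sl) (Nat.sub rh rl)))
    (leaf3 l M PP PM QP QM (vP y al be tm (hf sl sh) (hf rl rh)) (vQ y al be tm (hf sl sh) (hf rl rh))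
      (Nat.mul (nat_lit 1024) (rad al be tm)))

noncomputable def leaf (l : CL) (M : ℕ) (y : Ty) (tl th sl sh rl rh : ℕ) : Bool :=
  frc (hf tl th) fun tm =>
  frc (Nat.mul (Nat.add (nat_lit 1048576) (Nat.mul tm tm)) (nat_lit 4096)) fun n2 =>
  frc (Nat.mul (Nat.add (nat_lit 1024) (Nat.div (Nat.mul (Nat.mul tm tm) (nat_lit 53)) (nat_lit 131072)))
    (nat_lit 64)) fun s0 =>
  frc (hf s0 (Nat.div n2 s0)) fun s1 => frc (Nat.succ (hf s1 (Nat.div n2 s1))) fun s2 =>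
  frc (Nat.div (nat_lit 268435456) s2) fun al => frc (Nat.div (Nat.mul tm (nat_lit 262144)) s2) fun be =>
  andb (Nat.ble (Nat.add (Nat.mul al al) (Nat.mul be be)) (nat_lit 16777216))
    (leaf2 l M y tm tl th sl sh rl rh al be)

noncomputable def nz (n : ℕ) (k : ℕ → ℕ) : ℕ :=
  @Nat.rec (fun _ => ℕ) (nat_lit 0) (fun m _ => k (Nat.succ m)) n

/-- branch and bound along a code; returns the unread code, `0` on failure -/
noncomputable def bb (lf : ℕ → ℕ → ℕ → ℕ → ℕ → ℕ → Bool) (fuel : ℕ) :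
    ℕ → ℕ → ℕ → ℕ → ℕ → ℕ → ℕ → ℕ :=
  @Nat.rec (fun _ => ℕ → ℕ → ℕ → ℕ → ℕ → ℕ → ℕ → ℕ) (fun _ _ _ _ _ _ _ => nat_lit 0)
    (fun _ ih tl th sl sh rl rh cd =>
      frc (Nat.mod cd (nat_lit 4)) fun d => frc (Nat.div cd (nat_lit 4)) fun q =>
      @Bool.rec (fun _ => ℕ)
        (@Bool.rec (fun _ => ℕ)
          (@Bool.rec (fun _ => ℕ)
            (frc (hf rl rh) fun m => nz (ih tl th sl sh rl m q) (ih tl th sl sh m rh))
            (frc (hf sl sh) fun m => nz (ih tl th sl m rl rh q) (ih tl th m sh rl rh))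
            (Nat.beq d (nat_lit 2)))
          (frc (hf tl th) fun m => nz (ih tl m sl sh rl rh q) (ih m th sl sh rl rh))
          (Nat.beq d (nat_lit 1)))
        (@Bool.rec (fun _ => ℕ) (nat_lit 0) q (lf tl th sl sh rl rh))
        (Nat.beq d (nat_lit 0))) fuel

end Pool.Agent.P.MP_53fdf1_co
end

-- part Pool.Agent.P.MP_53fdf1_co.Sound
section

set_option autoImplicit false

namespace Pool.Agent.P.MP_53fdf1_co

theorem frc_eq {α : Type} (n : ℕ) (k : ℕ → α) : frc n k = k n := (rfl)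

theorem frb_eq {α : Type} (b : Bool) (k : Bool → α) : frb b k = k b := by cases b <;> rfl

theorem mk4_eq {α : Type} (a b c d : ℕ) (k : ℕ → ℕ → ℕ → ℕ → α) : mk4 a b c d k = k a b c d := (rfl)

theorem mkV_eq {α : Type} (a b c d : ℕ) (k : V4 → α) : mkV a b c d k = k ⟨a, b, c, d⟩ := (rfl)

theorem mk8_eq {α : Type} (a0 a1 a2 a3 a4 a5 a6 a7 : ℕ) (k : V8 → α) :
    mk8 a0 a1 a2 a3 a4 a5 a6 a7 k = k ⟨a0, a1, a2, a3, a4, a5, a6, a7⟩ := (rfl)

theorem seq2_eq (s : St) (k : St → St) : seq2 s k = k s := (rfl)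

theorem andb_eq (a b : Bool) : andb a b = true ↔ a = true ∧ b = true := by
  cases a <;> simp [andb]

theorem nand_eq (a b c d : ℕ) (h : nand a b c d = false) : a ≤ b ∧ c ≤ d := by
  unfold nand at h
  cases h1 : Nat.ble a b <;> cases h2 : Nat.ble c d <;> simp only [h1, h2] at h
  all_goals first | exact ⟨Nat.le_of_ble_eq_true h1, Nat.le_of_ble_eq_true h2⟩ | cases h

theorem btw_eq (a m b : ℕ) (h : btw a m b = true) : a < m ∧ m < b := by
  obtain ⟨h1, h2⟩ := (andb_eq _ _).1 h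
  exact ⟨Nat.le_of_ble_eq_true h1, Nat.le_of_ble_eq_true h2⟩

/-- convex weights on the eight vertices -/
structure L8 where
  (l0 l1 l2 l3 l4 l5 l6 l7 : ℝ)
  (h0 : 0 ≤ l0) (h1 : 0 ≤ l1) (h2 : 0 ≤ l2) (h3 : 0 ≤ l3)
  (h4 : 0 ≤ l4) (h5 : 0 ≤ l5) (h6 : 0 ≤ l6) (h7 : 0 ≤ l7)
  (sum : l0 + l1 + l2 + l3 + l4 + l5 + l6 + l7 = 1)

def L8.dot (l : L8) (v : V8) : ℝ :=
  l.l0 * v.a0 + l.l1 * v.a1 + l.l2 * v.a2 + l.l3 * v.a3 + l.l4 * v.a4 + l.l5 * v.a5 + l.l6 * v.a6 +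
    l.l7 * v.a7

def L8.mix (l : L8) (a b : ℝ) : ℝ := (l.l0 + l.l1 + l.l2 + l.l3) * a + (l.l4 + l.l5 + l.l6 + l.l7) * b

def c8 (a b : ℕ) : V8 := ⟨a, a, a, a, b, b, b, b⟩

def le8 (v w : V8) : Prop :=
  v.a0 ≤ w.a0 ∧ v.a1 ≤ w.a1 ∧ v.a2 ≤ w.a2 ∧ v.a3 ≤ w.a3 ∧ v.a4 ≤ w.a4 ∧ v.a5 ≤ w.a5 ∧ v.a6 ≤ w.a6 ∧
    v.a7 ≤ w.a7

def sub8 (v w : V8) : V8 :=
  ⟨v.a0 - w.a0, v.a1 - w.a1, v.a2 - w.a2, v.a3 - w.a3, v.a4 - w.a4, v.a5 - w.a5, v.a6 - w.a6, v.a7 - w.a7⟩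

theorem dot_c8 (l : L8) (a b : ℕ) : l.dot (c8 a b) = l.mix a b := by
  simp only [L8.dot, L8.mix, c8]; ring

theorem dot_mono (l : L8) {v w : V8} (h : le8 v w) : l.dot v ≤ l.dot w := by
  obtain ⟨a0, a1, a2, a3, a4, a5, a6, a7⟩ := h
  unfold L8.dot
  have := l.h0; have := l.h1; have := l.h2; have := l.h3
  have := l.h4; have := l.h5; have := l.h6; have := l.h7
  gcongr

theorem sub_cast (a b : ℕ) : (a : ℝ) - b ≤ ((a - b : ℕ) : ℝ) := by
  rcases le_total b a with h | h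
  · rw [Nat.cast_sub h]
  · have : (a : ℝ) ≤ b := by exact_mod_cast h
    have : (0 : ℝ) ≤ ((a - b : ℕ) : ℝ) := Nat.cast_nonneg _
    linarith

theorem dot_sub (l : L8) (v w : V8) : max (l.dot v - l.dot w) 0 ≤ l.dot (sub8 v w) := by
  have := l.h0; have := l.h1; have := l.h2; have := l.h3
  have := l.h4; have := l.h5; have := l.h6; have := l.h7
  refine max_le ?_ (by unfold L8.dot; positivity)
  have e : l.dot v - l.dot w = l.l0 * (v.a0 - w.a0) + l.l1 * (v.a1 - w.a1) + l.l2 * (v.a2 - w.a2) +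
      l.l3 * (v.a3 - w.a3) + l.l4 * (v.a4 - w.a4) + l.l5 * (v.a5 - w.a5) + l.l6 * (v.a6 - w.a6) +
      l.l7 * (v.a7 - w.a7) := by unfold L8.dot; ring
  rw [e]
  unfold L8.dot sub8
  gcongr <;> apply sub_cast

theorem addG_cA (l : L8) (c u0 u1 w0 w1 : ℕ) (P v : V8) (k : V8 → St) :
    ∃ v', addG cA c u0 u1 w0 w1 P v k = k v' ∧
      l.dot v + c * (max (l.mix u0 w0 - l.dot P) 0 + max (l.mix u1 w1 - l.dot P) 0) ≤ l.dot v' := by
  refine ⟨_, rfl, ?_⟩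
  have a := dot_sub l (c8 u0 w0) P
  have b := dot_sub l (c8 u1 w1) P
  rw [dot_c8] at a b
  have := mul_le_mul_of_nonneg_left (add_le_add a b) (Nat.cast_nonneg (α := ℝ) c)
  refine le_trans (add_le_add le_rfl this) (le_of_eq ?_)
  simp only [L8.dot, sub8, c8, cA, Nat.add_eq, Nat.mul_eq, Nat.sub_eq, Nat.cast_add, Nat.cast_mul]
  ring

theorem addG_cB (l : L8) (c u0 u1 w0 w1 : ℕ) (P v : V8) (k : V8 → St) :
    ∃ v', addG cB c u0 u1 w0 w1 P v k = k v' ∧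
      l.dot v + c * (max (l.dot P - l.mix u0 w0) 0 + max (l.dot P - l.mix u1 w1) 0) ≤ l.dot v' := by
  refine ⟨_, rfl, ?_⟩
  have a := dot_sub l P (c8 u0 w0)
  have b := dot_sub l P (c8 u1 w1)
  rw [dot_c8] at a b
  have := mul_le_mul_of_nonneg_left (add_le_add a b) (Nat.cast_nonneg (α := ℝ) c)
  refine le_trans (add_le_add le_rfl this) (le_of_eq ?_)
  simp only [L8.dot, sub8, c8, cB, Nat.add_eq, Nat.mul_eq, Nat.sub_eq, Nat.cast_add, Nat.cast_mul]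
  ring

def upR (t x y : ℝ) : ℝ := 2 ^ 34 + 2 ^ 20 * x + t * y

def dnR (t y x : ℝ) : ℝ := 2 ^ 34 + 2 ^ 20 * y - t * x

theorem mix_up (l : L8) (x tl th y : ℕ) :
    l.mix (up x tl y : ℕ) (up x th y : ℕ) = upR (l.mix tl th) x y := by
  have := l.sum
  simp only [L8.mix, up, big, upR, Nat.add_eq, Nat.mul_eq, Nat.cast_add, Nat.cast_mul]
  norm_num
  linear_combination (17179869184 + x * 1048576) * this

theorem dn_cast (y t x : ℕ) (ht : t ≤ 2 ^ 20) (hx : x ≤ 2 ^ 14) :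
    ((dn y t x : ℕ) : ℝ) = dnR t y x := by
  have h : t * x ≤ 17179869184 + y * 1048576 := by
    have := Nat.mul_le_mul ht hx
    omega
  have e : dn y t x = 17179869184 + y * 1048576 - t * x := rfl
  rw [e, Nat.cast_sub h, dnR]
  push_cast
  ring

theorem mix_dn (l : L8) (y tl th x : ℕ) (h1 : tl ≤ 2 ^ 20) (h2 : th ≤ 2 ^ 20) (hx : x ≤ 2 ^ 14) :
    l.mix (dn y tl x : ℕ) (dn y th x : ℕ) = dnR (l.mix tl th) y x := by
  have := l.sum
  rw [dn_cast _ _ _ h1 hx, dn_cast _ _ _ h2 hx]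
  simp only [L8.mix, dnR]
  linear_combination (2 ^ 34 + 2 ^ 20 * y) * this

theorem mix_nonneg (l : L8) (a b : ℕ) : 0 ≤ l.mix a b := by
  have := l.h0; have := l.h1; have := l.h2; have := l.h3
  have := l.h4; have := l.h5; have := l.h6; have := l.h7
  unfold L8.mix; positivity

/-- what the checker needs to know about areas -/
structure AreaOK (t pp pm qp qm : ℝ) (A : ℕ → ℕ → ℕ → ℕ → ℝ) : Prop where
  nonneg : ∀ x0 x1 y0 y1, 0 ≤ A x0 x1 y0 y1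
  spY : ∀ x0 x1 y0 ys y1, y0 < ys → ys < y1 → A x0 x1 y0 ys + A x0 x1 ys y1 ≤ A x0 x1 y0 y1
  spX : ∀ x0 xs x1 y0 y1, x0 < xs → xs < x1 → A x0 xs y0 y1 + A xs x1 y0 y1 ≤ A x0 x1 y0 y1
  acc : ∀ x0 x1 y0 y1 : ℕ, x0 ≤ x1 → y0 ≤ y1 →
    2 ^ 21 * ((y1 - y0) * (x1 - x0)) -
      (y1 - y0) * (max (upR t x1 y0 - pp) 0 + max (upR t x1 y1 - pp) 0) -
      (y1 - y0) * (max (pm - upR t x0 y0) 0 + max (pm - upR t x0 y1) 0) -
      (x1 - x0) * (max (dnR t y1 x0 - qp) 0 + max (dnR t y1 x1 - qp) 0) -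
      (x1 - x0) * (max (qm - dnR t y0 x0) 0 + max (qm - dnR t y0 x1) 0) ≤ 2 ^ 21 * A x0 x1 y0 y1

structure CtxOK (C : Ctx) : Prop where
  tl : C.tl ≤ 2 ^ 20
  th : C.th ≤ 2 ^ 20
  pp : le8 (c8 C.ml.pp C.mh.pp) C.PP
  pm : le8 C.PM (c8 C.ml.pm C.mh.pm)
  qp : le8 (c8 C.ml.qp C.mh.qp) C.QP
  qm : le8 C.QM (c8 C.ml.qm C.mh.qm)

def L8.val (l : L8) (s : St) : ℝ := s.c - l.dot s.v

theorem mix_mono (l : L8) {a b c d : ℕ} (h1 : a ≤ c) (h2 : b ≤ d) : l.mix a b ≤ l.mix c d := by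
  rw [← dot_c8, ← dot_c8]
  exact dot_mono l ⟨h1, h1, h1, h1, h2, h2, h2, h2⟩

/-- the flags are honest: a flag that is off means that the cut vanishes -/
structure FlagOK (l : L8) (C : Ctx) (x0 x1 y0 y1 : ℕ) (u0 u1 u2 u3 : Bool) : Prop where
  f0 : u0 = false → upR (l.mix C.tl C.th) x1 y1 ≤ l.dot C.PP
  f1 : u1 = false → l.dot C.PM ≤ upR (l.mix C.tl C.th) x0 y0
  f2 : u2 = false → dnR (l.mix C.tl C.th) y1 x0 ≤ l.dot C.QP
  f3 : u3 = false → l.dot C.QM ≤ dnR (l.mix C.tl C.th) y0 x1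

theorem opt_ex (l : L8) (u : Bool) (f : V8 → (V8 → St) → St) (v : V8) (k : V8 → St) (z : ℝ)
    (h0 : u = false → z ≤ 0) (h1 : ∃ v', f v k = k v' ∧ l.dot v + z ≤ l.dot v') :
    ∃ v', opt u f v k = k v' ∧ l.dot v + z ≤ l.dot v' := by
  cases u
  · exact ⟨v, rfl, by linarith [h0 rfl]⟩
  · exact h1

variable {l : L8} {C : Ctx} {A : ℕ → ℕ → ℕ → ℕ → ℝ}

theorem accept_sound (hC : CtxOK C)
    (hA : AreaOK (l.mix C.tl C.th) (l.dot C.PP) (l.dot C.PM) (l.dot C.QP) (l.dot C.QM) A)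
    (w x0 x1 y0 y1 : ℕ) (u0 u1 u2 u3 : Bool) (s : St) (hx : x0 ≤ x1) (hy : y0 ≤ y1) (hx1 : x1 ≤ 2 ^ 14)
    (hf : FlagOK l C x0 x1 y0 y1 u0 u1 u2 u3) :
    l.val (accept C w x0 x1 y0 y1 u0 u1 u2 u3 s) ≤ l.val s + 2 ^ 21 * (w * A x0 x1 y0 y1) := by
  obtain ⟨c, v⟩ := s
  have hx0 : x0 ≤ 2 ^ 14 := hx.trans hx1
  have ht := mix_nonneg l C.tl C.th
  have hxr : (x0 : ℝ) ≤ x1 := by exact_mod_cast hx
  have hyr : (y0 : ℝ) ≤ y1 := by exact_mod_cast hy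
  have e : accept C w x0 x1 y0 y1 u0 u1 u2 u3 ⟨c, v⟩ = accept2 C x0 x1 y0 y1 u0 u1 u2 u3 v
      (w * (x1 - x0)) (w * (y1 - y0)) (c + w * (y1 - y0) * (x1 - x0) * 2097152) :=
    frc_eq (c + w * (y1 - y0) * (x1 - x0) * 2097152) (accept2 C x0 x1 y0 y1 u0 u1 u2 u3 v
      (w * (x1 - x0)) (w * (y1 - y0)))
  rw [e]
  unfold accept2
  have m1 := mul_le_mul_of_nonneg_left hyr ht
  have m2 := mul_le_mul_of_nonneg_left hxr ht
  obtain ⟨v1, e1, i1⟩ := opt_ex l u0 (addH cA up C.tl C.th (w * (y1 - y0)) x1 y0 y1 C.PP) v _ _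
    (fun h => by
      have := hf.f0 h
      rw [mix_up, mix_up, max_eq_right (by unfold upR at this ⊢; linarith),
        max_eq_right (by unfold upR at this ⊢; linarith)]
      simp) (addG_cA l _ _ _ _ _ _ _ _)
  rw [e1]
  obtain ⟨v2, e2, i2⟩ := opt_ex l u1 (addH cB up C.tl C.th (w * (y1 - y0)) x0 y0 y1 C.PM) v1 _ _
    (fun h => by
      have := hf.f1 h
      rw [mix_up, mix_up, max_eq_right (by unfold upR at this ⊢; linarith),
        max_eq_right (by unfold upR at this ⊢; linarith)]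
      simp) (addG_cB l _ _ _ _ _ _ _ _)
  rw [e2]
  obtain ⟨v3, e3, i3⟩ := opt_ex l u2 (addH cA dn C.tl C.th (w * (x1 - x0)) y1 x0 x1 C.QP) v2 _ _
    (fun h => by
      have := hf.f2 h
      rw [mix_dn l _ _ _ _ hC.tl hC.th hx0, mix_dn l _ _ _ _ hC.tl hC.th hx1,
        max_eq_right (by unfold dnR at this ⊢; linarith), max_eq_right (by unfold dnR at this ⊢; linarith)]
      simp) (addG_cA l _ _ _ _ _ _ _ _)
  rw [e3]
  obtain ⟨v4, e4, i4⟩ := opt_ex l u3 (addH cB dn C.tl C.th (w * (x1 - x0)) y0 x0 x1 C.QM) v3 _ _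
    (fun h => by
      have := hf.f3 h
      rw [mix_dn l _ _ _ _ hC.tl hC.th hx0, mix_dn l _ _ _ _ hC.tl hC.th hx1,
        max_eq_right (by unfold dnR at this ⊢; linarith), max_eq_right (by unfold dnR at this ⊢; linarith)]
      simp) (addG_cB l _ _ _ _ _ _ _ _)
  rw [e4]
  rw [mix_up, mix_up] at i1 i2
  rw [mix_dn l _ _ _ _ hC.tl hC.th hx0, mix_dn l _ _ _ _ hC.tl hC.th hx1] at i3 i4
  have a := mul_le_mul_of_nonneg_left (hA.acc x0 x1 y0 y1 hx hy) (Nat.cast_nonneg (α := ℝ) w)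
  simp only [L8.val, Nat.cast_add, Nat.cast_mul, Nat.cast_sub hx, Nat.cast_sub hy, Nat.cast_ofNat] at i1 i2 i3 i4 ⊢
  linear_combination a + i1 + i2 + i3 + i4

/-- the specification of a planning routine -/
def Spec (l : L8) (A : ℕ → ℕ → ℕ → ℕ → ℝ) (w : ℕ) (f : ℕ → ℕ → ℕ → ℕ → St → St) : Prop :=
  ∀ x0 x1 y0 y1 s, x0 ≤ x1 → y0 ≤ y1 → x1 ≤ 2 ^ 14 →
    l.val (f x0 x1 y0 y1 s) ≤ l.val s + 2 ^ 21 * (w * A x0 x1 y0 y1)

def SpecF (l : L8) (C : Ctx) (A : ℕ → ℕ → ℕ → ℕ → ℝ) (w : ℕ)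
    (f : ℕ → ℕ → ℕ → ℕ → Bool → Bool → Bool → Bool → St → St) : Prop :=
  ∀ x0 x1 y0 y1 u0 u1 u2 u3 s, x0 ≤ x1 → y0 ≤ y1 → x1 ≤ 2 ^ 14 → FlagOK l C x0 x1 y0 y1 u0 u1 u2 u3 →
    l.val (f x0 x1 y0 y1 u0 u1 u2 u3 s) ≤ l.val s + 2 ^ 21 * (w * A x0 x1 y0 y1)

theorem split_sound (hC : CtxOK C)
    (hA : AreaOK (l.mix C.tl C.th) (l.dot C.PP) (l.dot C.PM) (l.dot C.QP) (l.dot C.QM) A)
    (w : ℕ) (ih : ℕ → ℕ → ℕ → ℕ → St → St) (hi : Spec l A w ih) : SpecF l C A w (split C w ih) := by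
  intro x0 x1 y0 y1 u0 u1 u2 u3 s hx hy hx1 hf
  have hw : (0 : ℝ) ≤ w := Nat.cast_nonneg w
  unfold split
  rw [frc_eq]
  generalize candY C x0 x1 y0 y1 u0 u1 u2 u3 = ys
  unfold splitY
  cases hb : btw y0 ys y1
  · simp only [frc_eq]
    generalize candX C x0 x1 y0 y1 u0 u1 u2 u3 = xs
    unfold splitX
    cases hb' : btw x0 xs x1
    · exact accept_sound hC hA w x0 x1 y0 y1 u0 u1 u2 u3 s hx hy hx1 hf
    · obtain ⟨h1, h2⟩ := btw_eq _ _ _ hb'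
      simp only [seq2_eq]
      have a := hi x0 xs y0 y1 s h1.le hy (h2.le.trans hx1)
      have b := hi xs x1 y0 y1 (ih x0 xs y0 y1 s) h2.le hy hx1
      have c := mul_le_mul_of_nonneg_left (hA.spX x0 xs x1 y0 y1 h1 h2) hw
      linear_combination a + b + 2 ^ 21 * c
  · obtain ⟨h1, h2⟩ := btw_eq _ _ _ hb
    simp only [seq2_eq]
    have a := hi x0 x1 y0 ys s hx h1.le hx1
    have b := hi x0 x1 ys y1 (ih x0 x1 y0 ys s) hx h2.le hx1
    have c := mul_le_mul_of_nonneg_left (hA.spY x0 x1 y0 ys y1 h1 h2) hw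
    linear_combination a + b + 2 ^ 21 * c

theorem step_sound (hC : CtxOK C)
    (hA : AreaOK (l.mix C.tl C.th) (l.dot C.PP) (l.dot C.PM) (l.dot C.QP) (l.dot C.QM) A)
    (w : ℕ) (k : ℕ → ℕ → ℕ → ℕ → Bool → Bool → Bool → Bool → St → St) (hk : SpecF l C A w k) :
    Spec l A w (step C k) := by
  intro x0 x1 y0 y1 s hx hy hx1
  have hx0 : x0 ≤ 2 ^ 14 := hx.trans hx1
  unfold step
  cases dropT C.tc C.d x0 x1 y0 y1
  · unfold flags
    simp only [frb_eq]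
    refine hk _ _ _ _ _ _ _ _ _ hx hy hx1 ⟨fun h => ?_, fun h => ?_, fun h => ?_, fun h => ?_⟩
    all_goals obtain ⟨a, b⟩ := nand_eq _ _ _ _ h
    · rw [← mix_up]
      exact (mix_mono l a b).trans (by rw [← dot_c8]; exact dot_mono l hC.pp)
    · rw [← mix_up]
      exact le_trans (by rw [← dot_c8]; exact dot_mono l hC.pm) (mix_mono l a b)
    · rw [← mix_dn l _ _ _ _ hC.tl hC.th hx0]
      exact (mix_mono l a b).trans (by rw [← dot_c8]; exact dot_mono l hC.qp)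
    · rw [← mix_dn l _ _ _ _ hC.tl hC.th hx1]
      exact le_trans (by rw [← dot_c8]; exact dot_mono l hC.qm) (mix_mono l a b)
  · have := hA.nonneg x0 x1 y0 y1
    have : (0 : ℝ) ≤ 2 ^ 21 * (w * A x0 x1 y0 y1) := by positivity
    simp only
    linarith

theorem plan_sound (hC : CtxOK C)
    (hA : AreaOK (l.mix C.tl C.th) (l.dot C.PP) (l.dot C.PM) (l.dot C.QP) (l.dot C.QM) A)
    (w fuel : ℕ) : Spec l A w (plan C w fuel) := by
  induction fuel with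
  | zero =>
    exact step_sound hC hA w _ fun x0 x1 y0 y1 u0 u1 u2 u3 s hx hy hx1 hf =>
      accept_sound hC hA w x0 x1 y0 y1 u0 u1 u2 u3 s hx hy hx1 hf
  | succ n ih => exact step_sound hC hA w _ (split_sound hC hA w _ ih)

def CL.ok : CL → Prop
  | .nil => True
  | .cons _ x0 x1 y0 y1 t => x0 ≤ x1 ∧ y0 ≤ y1 ∧ x1 ≤ 2 ^ 14 ∧ t.ok

def CL.mass (A : ℕ → ℕ → ℕ → ℕ → ℝ) : CL → ℝ
  | .nil => 0
  | .cons w x0 x1 y0 y1 t => w * A x0 x1 y0 y1 + t.mass A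

theorem run_sound (hC : CtxOK C)
    (hA : AreaOK (l.mix C.tl C.th) (l.dot C.PP) (l.dot C.PM) (l.dot C.QP) (l.dot C.QM) A)
    (L : CL) (hL : L.ok) (s : St) : l.val (run C L s) ≤ l.val s + 2 ^ 21 * L.mass A := by
  induction L generalizing s with
  | nil => simp [run, CL.mass]
  | cons w x0 x1 y0 y1 t ih =>
    obtain ⟨h1, h2, h3, h4⟩ := hL
    have e : run C (.cons w x0 x1 y0 y1 t) s = run C t (plan C w 6 x0 x1 y0 y1 s) := rfl
    have a := ih h4 (plan C w 6 x0 x1 y0 y1 s)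
    have b := plan_sound hC hA w 6 x0 x1 y0 y1 s h1 h2 h3
    rw [e, CL.mass]
    linarith

theorem mn_eq (a b : ℕ) : mn a b = min a b := by
  simp only [mn, Nat.sub_eq]; omega

theorem mx_eq (a b : ℕ) : mx a b = max a b := by
  simp only [mx, Nat.sub_eq, Nat.add_eq]; omega

theorem le8_mn (P : V8) : le8 (c8 (loG mn P) (hiG mn P)) P := by
  simp only [le8, c8, loG, hiG, mn_eq]; omega

theorem le8_mx (P : V8) : le8 P (c8 (loG mx P) (hiG mx P)) := by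
  simp only [le8, c8, loG, hiG, mx_eq]; omega

theorem fin8_sound (M : ℕ) (s : St) (h : fin8 M s = true) : (M : ℝ) ≤ l.val s := by
  obtain ⟨c, v⟩ := s
  have h1 : mx (loG mx v) (hiG mx v) + M ≤ c := Nat.le_of_ble_eq_true h
  have h2 := (dot_mono l (le8_mx v)).trans_eq (dot_c8 l _ _)
  have h3 := mix_mono l (le_max_left (loG mx v) (hiG mx v)) (le_max_right (loG mx v) (hiG mx v))
  rw [mx_eq] at h1
  have h4 : l.mix (max (loG mx v) (hiG mx v) : ℕ) (max (loG mx v) (hiG mx v) : ℕ) =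
      (max (loG mx v) (hiG mx v) : ℕ) := by
    have := l.sum
    unfold L8.mix
    linear_combination ((max (loG mx v) (hiG mx v) : ℕ) : ℝ) * this
  have h5 : ((max (loG mx v) (hiG mx v) : ℕ) : ℝ) + M ≤ c := by exact_mod_cast h1
  simp only [L8.val]
  linarith

theorem leaf3_sound (L : CL) (hL : L.ok) (M : ℕ) (PP PM QP QM : V8) (cp cq dc tl th tc tol : ℕ)
    (h1 : tl ≤ 2 ^ 20) (h2 : th ≤ 2 ^ 20)
    (hA : AreaOK (l.mix tl th) (l.dot PP) (l.dot PM) (l.dot QP) (l.dot QM) A)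
    (h : leaf3 L M PP PM QP QM cp cq dc tl th tc tol = true) : (M : ℝ) ≤ 2 ^ 21 * L.mass A := by
  unfold leaf3 at h
  rw [mk4_eq, frc_eq] at h
  unfold leaf4 at h
  simp only [mkV_eq] at h
  have a := fin8_sound (l := l) _ _ h
  refine a.trans ((run_sound (A := A) ?_ ?_ L hL _).trans (le_of_eq ?_))
  · exact ⟨h1, h2, le8_mn _, le8_mx _, le8_mn _, le8_mx _⟩
  · exact hA
  · simp [L8.val, L8.dot]

theorem nz_pos (n : ℕ) (k : ℕ → ℕ) (h : nz n k ≠ 0) : n ≠ 0 ∧ k n ≠ 0 := by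
  cases n with
  | zero => exact absurd rfl h
  | succ m => exact ⟨Nat.succ_ne_zero m, h⟩

theorem bb_sound (lf : ℕ → ℕ → ℕ → ℕ → ℕ → ℕ → Bool) (G : ℝ → ℝ → ℝ → Prop)
    (hl : ∀ tl th sl sh rl rh : ℕ, th ≤ 1024 → sh ≤ 1024 → rh ≤ 1024 → lf tl th sl sh rl rh = true →
      ∀ t s r : ℝ, tl ≤ t → t ≤ th → sl ≤ s → s ≤ sh → rl ≤ r → r ≤ rh → G t s r) (fuel : ℕ) :
    ∀ tl th sl sh rl rh cd : ℕ, th ≤ 1024 → sh ≤ 1024 → rh ≤ 1024 → tl ≤ th → sl ≤ sh → rl ≤ rh →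
      bb lf fuel tl th sl sh rl rh cd ≠ 0 →
      ∀ t s r : ℝ, tl ≤ t → t ≤ th → sl ≤ s → s ≤ sh → rl ≤ r → r ≤ rh → G t s r := by
  have hm : ∀ a b : ℕ, a ≤ b → a ≤ hf a b ∧ hf a b ≤ b := fun a b h => by
    have e : hf a b = (a + b) / 2 := rfl
    omega
  induction fuel with
  | zero => intro _ _ _ _ _ _ _ _ _ _ _ _ _ h; exact absurd rfl h
  | succ n ih =>
    intro tl th sl sh rl rh cd b1 b2 b3 c1 c2 c3 h t s r t1 t2 s1 s2 r1 r2
    unfold bb at h ih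
    simp only [frc_eq] at h ih
    generalize Nat.beq (Nat.mod cd (nat_lit 4)) (nat_lit 0) = d0 at h
    generalize Nat.beq (Nat.mod cd (nat_lit 4)) (nat_lit 1) = d1 at h
    generalize Nat.beq (Nat.mod cd (nat_lit 4)) (nat_lit 2) = d2 at h
    cases d0
    · cases d1
      · cases d2
        · obtain ⟨p, q⟩ := nz_pos _ _ h
          obtain ⟨m1, m2⟩ := hm rl rh c3
          rcases le_total r (hf rl rh : ℕ) with e | e
          · exact ih _ _ _ _ _ _ _ b1 b2 (m2.trans b3) c1 c2 m1 p t s r t1 t2 s1 s2 r1 e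
          · exact ih _ _ _ _ _ _ _ b1 b2 b3 c1 c2 m2 q t s r t1 t2 s1 s2 e r2
        · obtain ⟨p, q⟩ := nz_pos _ _ h
          obtain ⟨m1, m2⟩ := hm sl sh c2
          rcases le_total s (hf sl sh : ℕ) with e | e
          · exact ih _ _ _ _ _ _ _ b1 (m2.trans b2) b3 c1 m1 c3 p t s r t1 t2 s1 e r1 r2
          · exact ih _ _ _ _ _ _ _ b1 b2 b3 c1 m2 c3 q t s r t1 t2 e s2 r1 r2
      · obtain ⟨p, q⟩ := nz_pos _ _ h
        obtain ⟨m1, m2⟩ := hm tl th c1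
        rcases le_total t (hf tl th : ℕ) with e | e
        · exact ih _ _ _ _ _ _ _ (m2.trans b1) b2 b3 m1 c2 c3 p t s r t1 e s1 s2 r1 r2
        · exact ih _ _ _ _ _ _ _ b1 b2 b3 m2 c2 c3 q t s r e t2 s1 s2 r1 r2
    · refine hl tl th sl sh rl rh b1 b2 b3 ?_ t s r t1 t2 s1 s2 r1 r2
      cases hb : lf tl th sl sh rl rh
      · rw [hb] at h; exact absurd rfl h
      · rfl

end Pool.Agent.P.MP_53fdf1_co
end

-- part Pool.Agent.P.MP_53fdf1_co.Area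
section

set_option autoImplicit false

open MeasureTheory Set

namespace Pool.Agent.P.MP_53fdf1_co

theorem band (B : Set (ℝ × ℝ)) (hB : MeasurableSet B) (u0 u1 α β : ℝ) (hu : u0 ≤ u1) (a : ℝ → ℝ)
    (H : ∀ p ∈ B, p.1 ∈ Ioo u0 u1 ∧ a p.1 ≤ p.2 ∧ p.2 ≤ a p.1 + (α + β * p.1)) :
    volume B ≤ ENNReal.ofReal ((u1 - u0) * (max (α + β * u0) 0 + max (α + β * u1) 0) / 2) := by
  rcases hu.eq_or_lt with rfl | hlt
  · have : B = ∅ := eq_empty_of_forall_notMem fun p hp => by simpa using (H p hp).1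
    simp [this]
  set h0 := max (α + β * u0) 0 with e0
  set h1 := max (α + β * u1) 0 with e1
  have p0 : 0 ≤ h0 := le_max_right _ _
  have p1 : 0 ≤ h1 := le_max_right _ _
  have q0 : α + β * u0 ≤ h0 := le_max_left _ _
  have q1 : α + β * u1 ≤ h1 := le_max_left _ _
  have hd : 0 < u1 - u0 := sub_pos.2 hlt
  set f : ℝ → ℝ := fun u => (u1 * h0 - u0 * h1) / (u1 - u0) + (h1 - h0) / (u1 - u0) * u with hf
  have fe : ∀ u, f u = ((u1 - u) * h0 + (u - u0) * h1) / (u1 - u0) := fun u => by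
    simp only [hf]; field_simp; ring
  have hc : Continuous f := by rw [hf]; fun_prop
  rw [Measure.volume_eq_prod, Measure.prod_apply hB]
  calc ∫⁻ u, volume (Prod.mk u ⁻¹' B)
      ≤ ∫⁻ u, (Ioc u0 u1).indicator (fun u => ENNReal.ofReal (f u)) u := by
        refine lintegral_mono fun u => ?_
        by_cases h : u ∈ Ioo u0 u1
        · rw [indicator_of_mem (Ioo_subset_Ioc_self h)]
          refine (measure_mono (t := Icc (a u) (a u + f u)) fun v hv => ?_).trans (by simp)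
          obtain ⟨-, b, c⟩ := H _ hv
          refine ⟨b, c.trans (add_le_add le_rfl ?_)⟩
          rw [fe, le_div_iff₀ hd]
          nlinarith [mul_le_mul_of_nonneg_left q0 (sub_pos.2 h.2).le,
            mul_le_mul_of_nonneg_left q1 (sub_pos.2 h.1).le]
        · have : Prod.mk u ⁻¹' B = ∅ := eq_empty_of_forall_notMem fun v hv => h (H _ hv).1
          simp [this]
    _ = ENNReal.ofReal (∫ u in Ioc u0 u1, f u) := by
        rw [lintegral_indicator measurableSet_Ioc, ofReal_integral_eq_lintegral_ofReal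
          (hc.integrableOn_Icc.mono_set Ioc_subset_Icc_self)]
        refine (ae_restrict_iff' measurableSet_Ioc).2 (Filter.Eventually.of_forall fun u h => ?_)
        rw [Pi.zero_apply, fe]
        have := sub_nonneg.2 h.2
        have := sub_nonneg.2 h.1.le
        positivity
    _ = _ := by
        congr 1
        rw [← intervalIntegral.integral_of_le hu, hf, intervalIntegral.integral_add (by simp)
          (Continuous.intervalIntegrable (by fun_prop) _ _), intervalIntegral.integral_const_mul,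
          integral_id, intervalIntegral.integral_const, smul_eq_mul]
        field_simp
        ring

theorem band' (B : Set (ℝ × ℝ)) (hB : MeasurableSet B) (u0 u1 α β : ℝ) (hu : u0 ≤ u1) (a : ℝ → ℝ)
    (H : ∀ p ∈ B, p.2 ∈ Ioo u0 u1 ∧ a p.2 ≤ p.1 ∧ p.1 ≤ a p.2 + (α + β * p.2)) :
    volume B ≤ ENNReal.ofReal ((u1 - u0) * (max (α + β * u0) 0 + max (α + β * u1) 0) / 2) := by
  have := band (Prod.swap ⁻¹' B) (measurable_swap hB) u0 u1 α β hu a fun p hp => H _ hp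
  rwa [Measure.volume_eq_prod, Measure.measurePreserving_swap.measure_preimage hB.nullMeasurableSet,
    ← Measure.volume_eq_prod] at this

/-- the open rectangle with slope parameter `t` and four offsets -/
def SV (t pp pm qp qm : ℝ) : Set (ℝ × ℝ) :=
  {z | pm < upR t z.1 z.2 ∧ upR t z.1 z.2 < pp ∧ qm < dnR t z.2 z.1 ∧ dnR t z.2 z.1 < qp}

def box (x0 x1 y0 y1 : ℕ) : Set (ℝ × ℝ) := Ioo (x0 : ℝ) x1 ×ˢ Ioo (y0 : ℝ) y1

noncomputable def ar (S : Set (ℝ × ℝ)) (x0 x1 y0 y1 : ℕ) : ℝ := volume.real (S ∩ box x0 x1 y0 y1)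

theorem meas_box (x0 x1 y0 y1 : ℕ) : MeasurableSet (box x0 x1 y0 y1) :=
  measurableSet_Ioo.prod measurableSet_Ioo

theorem vol_box (x0 x1 y0 y1 : ℕ) :
    volume (box x0 x1 y0 y1) = ENNReal.ofReal (x1 - x0) * ENNReal.ofReal (y1 - y0) := by
  rw [box, Measure.volume_eq_prod, Measure.prod_prod, Real.volume_Ioo, Real.volume_Ioo]

theorem fin_box (S : Set (ℝ × ℝ)) (x0 x1 y0 y1 : ℕ) : volume (S ∩ box x0 x1 y0 y1) ≠ ⊤ :=
  ne_top_of_le_ne_top (by rw [vol_box]; finiteness) (measure_mono inter_subset_right)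

theorem ar_mono {S T : Set (ℝ × ℝ)} (h : S ⊆ T) (x0 x1 y0 y1 : ℕ) : ar S x0 x1 y0 y1 ≤ ar T x0 x1 y0 y1 :=
  measureReal_mono (inter_subset_inter_left _ h) (fin_box _ _ _ _ _)

theorem cont_up (t : ℝ) : Continuous fun z : ℝ × ℝ => upR t z.1 z.2 := by unfold upR; fun_prop

theorem cont_dn (t : ℝ) : Continuous fun z : ℝ × ℝ => dnR t z.2 z.1 := by unfold dnR; fun_prop

theorem meas_SV (t pp pm qp qm : ℝ) : MeasurableSet (SV t pp pm qp qm) :=
  ((isOpen_lt continuous_const (cont_up t)).inter ((isOpen_lt (cont_up t) continuous_const).inter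
    ((isOpen_lt continuous_const (cont_dn t)).inter (isOpen_lt (cont_dn t) continuous_const)))).measurableSet

theorem max_div (a : ℝ) : max (a / 2 ^ 20) 0 = max a 0 / 2 ^ 20 := by
  rw [← max_div_div_right (by positivity), zero_div]

theorem areaOK (t pp pm qp qm : ℝ) : AreaOK t pp pm qp qm (ar (SV t pp pm qp qm)) where
  nonneg _ _ _ _ := measureReal_nonneg
  spY x0 x1 y0 ys y1 h1 h2 := by
    have a : (y0 : ℝ) < ys := by exact_mod_cast h1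
    have b : (ys : ℝ) < y1 := by exact_mod_cast h2
    unfold ar
    rw [← measureReal_union _ ((meas_SV _ _ _ _ _).inter (meas_box _ _ _ _)) (fin_box _ _ _ _ _)
      (fin_box _ _ _ _ _)]
    · refine measureReal_mono ?_ (fin_box _ _ _ _ _)
      rintro z (⟨h, h3, h4, h5⟩ | ⟨h, h3, h4, h5⟩)
      · exact ⟨h, h3, h4, h5.trans b⟩
      · exact ⟨h, h3, a.trans h4, h5⟩
    · exact disjoint_left.2 fun z hz hz' => lt_asymm hz.2.2.2 hz'.2.2.1
  spX x0 xs x1 y0 y1 h1 h2 := by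
    have a : (x0 : ℝ) < xs := by exact_mod_cast h1
    have b : (xs : ℝ) < x1 := by exact_mod_cast h2
    unfold ar
    rw [← measureReal_union _ ((meas_SV _ _ _ _ _).inter (meas_box _ _ _ _)) (fin_box _ _ _ _ _)
      (fin_box _ _ _ _ _)]
    · refine measureReal_mono ?_ (fin_box _ _ _ _ _)
      rintro z (⟨h, ⟨h4, h5⟩, h3⟩ | ⟨h, ⟨h4, h5⟩, h3⟩)
      · exact ⟨h, ⟨h4, h5.trans b⟩, h3⟩
      · exact ⟨h, ⟨a.trans h4, h5⟩, h3⟩
    · exact disjoint_left.2 fun z hz hz' => lt_asymm hz.2.1.2 hz'.2.1.1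
  acc x0 x1 y0 y1 h1 h2 := by
    have a : (x0 : ℝ) ≤ x1 := by exact_mod_cast h1
    have b : (y0 : ℝ) ≤ y1 := by exact_mod_cast h2
    have a' := sub_nonneg.2 a
    have b' := sub_nonneg.2 b
    have mb := meas_box x0 x1 y0 y1
    have b0 := band' ({z | pp ≤ upR t z.1 z.2} ∩ box x0 x1 y0 y1)
      ((isClosed_le continuous_const (cont_up t)).measurableSet.inter mb) y0 y1
      ((2 ^ 34 + 2 ^ 20 * x1 - pp) / 2 ^ 20) (t / 2 ^ 20) b
      (fun y => x1 - ((2 ^ 34 + 2 ^ 20 * x1 - pp) / 2 ^ 20 + t / 2 ^ 20 * y)) (by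
        rintro p ⟨h, ⟨-, h4⟩, h5⟩
        refine ⟨h5, ?_, by linarith⟩
        simp only [mem_ofPred, upR] at h
        linarith)
    have b1 := band' ({z | upR t z.1 z.2 ≤ pm} ∩ box x0 x1 y0 y1)
      ((isClosed_le (cont_up t) continuous_const).measurableSet.inter mb) y0 y1
      ((pm - 2 ^ 34 - 2 ^ 20 * x0) / 2 ^ 20) (-t / 2 ^ 20) b (fun _ => x0) (by
        rintro p ⟨h, ⟨h4, -⟩, h5⟩
        refine ⟨h5, h4.le, ?_⟩
        simp only [mem_ofPred, upR] at h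
        linarith)
    have b2 := band ({z | qp ≤ dnR t z.2 z.1} ∩ box x0 x1 y0 y1)
      ((isClosed_le continuous_const (cont_dn t)).measurableSet.inter mb) x0 x1
      ((2 ^ 34 + 2 ^ 20 * y1 - qp) / 2 ^ 20) (-t / 2 ^ 20) a
      (fun x => y1 - ((2 ^ 34 + 2 ^ 20 * y1 - qp) / 2 ^ 20 + -t / 2 ^ 20 * x)) (by
        rintro p ⟨h, h5, -, h4⟩
        refine ⟨h5, ?_, by linarith⟩
        simp only [mem_ofPred, dnR] at h
        linarith)
    have b3 := band ({z | dnR t z.2 z.1 ≤ qm} ∩ box x0 x1 y0 y1)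
      ((isClosed_le (cont_dn t) continuous_const).measurableSet.inter mb) x0 x1
      ((qm - 2 ^ 34 - 2 ^ 20 * y0) / 2 ^ 20) (t / 2 ^ 20) a (fun _ => y0) (by
        rintro p ⟨h, h5, h4, -⟩
        refine ⟨h5, h4.le, ?_⟩
        simp only [mem_ofPred, dnR] at h
        linarith)
    have r0 : ∀ y : ℝ, (2 ^ 34 + 2 ^ 20 * x1 - pp) / 2 ^ 20 + t / 2 ^ 20 * y = (upR t x1 y - pp) / 2 ^ 20 :=
      fun y => by unfold upR; ring
    have r1 : ∀ y : ℝ, (pm - 2 ^ 34 - 2 ^ 20 * x0) / 2 ^ 20 + -t / 2 ^ 20 * y = (pm - upR t x0 y) / 2 ^ 20 :=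
      fun y => by unfold upR; ring
    have r2 : ∀ x : ℝ, (2 ^ 34 + 2 ^ 20 * y1 - qp) / 2 ^ 20 + -t / 2 ^ 20 * x = (dnR t y1 x - qp) / 2 ^ 20 :=
      fun y => by unfold dnR; ring
    have r3 : ∀ x : ℝ, (qm - 2 ^ 34 - 2 ^ 20 * y0) / 2 ^ 20 + t / 2 ^ 20 * x = (qm - dnR t y0 x) / 2 ^ 20 :=
      fun y => by unfold dnR; ring
    rw [r0, r0, max_div, max_div] at b0
    rw [r1, r1, max_div, max_div] at b1
    rw [r2, r2, max_div, max_div] at b2
    rw [r3, r3, max_div, max_div] at b3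
    have c0 := ENNReal.toReal_le_of_le_ofReal (by positivity) b0
    have c1 := ENNReal.toReal_le_of_le_ofReal (by positivity) b1
    have c2 := ENNReal.toReal_le_of_le_ofReal (by positivity) b2
    have c3 := ENNReal.toReal_le_of_le_ofReal (by positivity) b3
    have vb : volume.real (box x0 x1 y0 y1) = (x1 - x0) * (y1 - y0) := by
      rw [Measure.real, vol_box, ENNReal.toReal_mul, ENNReal.toReal_ofReal a', ENNReal.toReal_ofReal b']
    have cov : box x0 x1 y0 y1 ⊆ SV t pp pm qp qm ∩ box x0 x1 y0 y1 ∪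
        {z | pp ≤ upR t z.1 z.2} ∩ box x0 x1 y0 y1 ∪ {z | upR t z.1 z.2 ≤ pm} ∩ box x0 x1 y0 y1 ∪
        {z | qp ≤ dnR t z.2 z.1} ∩ box x0 x1 y0 y1 ∪ {z | dnR t z.2 z.1 ≤ qm} ∩ box x0 x1 y0 y1 := by
      intro z hz
      simp only [mem_union, mem_inter_iff, hz, and_true, SV, mem_ofPred]
      by_contra h
      push Not at h
      obtain ⟨⟨⟨⟨k, k0⟩, k1⟩, k2⟩, k3⟩ := h
      exact absurd (k k1 k0 k3) (not_le.2 k2)
    have m := measureReal_mono (μ := volume) cov (by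
      refine measure_union_ne_top (measure_union_ne_top (measure_union_ne_top
        (measure_union_ne_top ?_ ?_) ?_) ?_) ?_ <;> apply fin_box)
    have m1 := m.trans ((measureReal_union_le _ _).trans (add_le_add ((measureReal_union_le _ _).trans
      (add_le_add ((measureReal_union_le _ _).trans (add_le_add (measureReal_union_le _ _) c1)) c2)) c3))
    rw [vb] at m1
    have c0' : volume.real ({z : ℝ × ℝ | pp ≤ upR t z.1 z.2} ∩ box x0 x1 y0 y1) ≤ _ := c0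
    unfold ar
    linear_combination 2 ^ 21 * m1 + 2 ^ 21 * c0'

end Pool.Agent.P.MP_53fdf1_co
end

-- part Pool.Agent.P.MP_53fdf1_co.Leaf
section

set_option autoImplicit false

open MeasureTheory Set

namespace Pool.Agent.P.MP_53fdf1_co

/-- the open square of side `4096` with centre `(c1, c2)` and direction `(a, b)` -/
def Sq (c1 c2 a b : ℝ) : Set (ℝ × ℝ) :=
  {z | |a * (z.1 - c1) + b * (z.2 - c2)| < 2048 ∧ |a * (z.2 - c2) - b * (z.1 - c1)| < 2048}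

def radR (al be : ℕ) (t : ℝ) : ℝ := al * 1024 + be * t

def vPR (y : Ty) (al be : ℕ) (t s r : ℝ) : ℝ :=
  20401094656 + (y.a1 + y.b * s) * 4194304 + t * ((y.a2 + y.b * r) * 4096 + 3145728) +
    (y.a3 + y.bb * s) * radR al be t

def vQR (y : Ty) (al be : ℕ) (t s r : ℝ) : ℝ :=
  20401094656 + (y.a2 + y.b * r) * 4194304 + (y.a4 + y.bb * r) * radR al be t -
    t * ((y.a1 + y.b * s) * 4096 + 3145728)

structure TyOK (y : Ty) : Prop where
  h1 : y.a1 + y.b * 1024 ≤ 1024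
  h3 : y.a3 + y.bb * 1024 ≤ 1024
  h4 : y.a4 + y.bb * 1024 ≤ 1024

theorem rad_cast (al be t : ℕ) : ((rad al be t : ℕ) : ℝ) = radR al be t := by
  have e : rad al be t = al * 1024 + be * t := rfl
  rw [e, radR]; push_cast; ring

theorem vP_cast (y : Ty) (al be t s r : ℕ) : ((vP y al be t s r : ℕ) : ℝ) = vPR y al be t s r := by
  have e : vP y al be t s r = 20401094656 + (y.a1 + y.b * s) * 4194304 +
    t * ((y.a2 + y.b * r) * 4096 + 3145728) + (y.a3 + y.bb * s) * rad al be t := rfl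
  rw [e, vPR, ← rad_cast]; push_cast; ring

theorem vQ_cast {y : Ty} (hy : TyOK y) (al be t s r : ℕ) (ht : t ≤ 1024) (hs : s ≤ 1024) :
    ((vQ y al be t s r : ℕ) : ℝ) = vQR y al be t s r := by
  have e : vQ y al be t s r = 20401094656 + (y.a2 + y.b * r) * 4194304 +
    (y.a4 + y.bb * r) * rad al be t - t * ((y.a1 + y.b * s) * 4096 + 3145728) := rfl
  have h1 : y.a1 + y.b * s ≤ 1024 := le_trans (by gcongr) hy.h1
  have h2 : t * ((y.a1 + y.b * s) * 4096 + 3145728) ≤ 1024 * (1024 * 4096 + 3145728) := by gcongr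
  rw [e, Nat.cast_sub (by omega), vQR, ← rad_cast]; push_cast; ring

def tri (p q w : ℝ) (hp : p ∈ Icc (0 : ℝ) 1) (hq : q ∈ Icc (0 : ℝ) 1) (hw : w ∈ Icc (0 : ℝ) 1) : L8 where
  l0 := (1 - p) * (1 - q) * (1 - w)
  l1 := (1 - p) * q * (1 - w)
  l2 := (1 - p) * (1 - q) * w
  l3 := (1 - p) * q * w
  l4 := p * (1 - q) * (1 - w)
  l5 := p * q * (1 - w)
  l6 := p * (1 - q) * w
  l7 := p * q * w
  h0 := mul_nonneg (mul_nonneg (sub_nonneg.2 hp.2) (sub_nonneg.2 hq.2)) (sub_nonneg.2 hw.2)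
  h1 := mul_nonneg (mul_nonneg (sub_nonneg.2 hp.2) hq.1) (sub_nonneg.2 hw.2)
  h2 := mul_nonneg (mul_nonneg (sub_nonneg.2 hp.2) (sub_nonneg.2 hq.2)) hw.1
  h3 := mul_nonneg (mul_nonneg (sub_nonneg.2 hp.2) hq.1) hw.1
  h4 := mul_nonneg (mul_nonneg hp.1 (sub_nonneg.2 hq.2)) (sub_nonneg.2 hw.2)
  h5 := mul_nonneg (mul_nonneg hp.1 hq.1) (sub_nonneg.2 hw.2)
  h6 := mul_nonneg (mul_nonneg hp.1 (sub_nonneg.2 hq.2)) hw.1
  h7 := mul_nonneg (mul_nonneg hp.1 hq.1) hw.1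
  sum := by ring

theorem ex_par {a b x : ℝ} (h1 : a ≤ x) (h2 : x ≤ b) : ∃ p ∈ Icc (0 : ℝ) 1, x = a + p * (b - a) := by
  rcases (h1.trans h2).eq_or_lt with rfl | h
  · exact ⟨0, by simp, by linarith⟩
  · have := sub_pos.2 h
    refine ⟨(x - a) / (b - a), ⟨div_nonneg (by linarith) this.le, (div_le_one this).2 (by linarith)⟩, ?_⟩
    field_simp
    ring

/-- the mass bound for the squares with parameters `t, s, r` in a tile -/
def GT (L : CL) (M : ℕ) (y : Ty) (t s r : ℝ) : Prop :=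
  ∀ a b : ℝ, 0 < a → a ^ 2 + b ^ 2 = 1 → t * a = 1024 * b →
    (M : ℝ) ≤ 2 ^ 21 * L.mass (ar (Sq
      (4 * (y.a1 + y.b * s) + 3072 + (4 * (y.a3 + y.bb * s) - 2048) * a - (4 * (y.a4 + y.bb * r) - 2048) * b)
      (4 * (y.a2 + y.b * r) + 3072 + (4 * (y.a3 + y.bb * s) - 2048) * b + (4 * (y.a4 + y.bb * r) - 2048) * a)
      a b))

theorem mass_mono {A B : ℕ → ℕ → ℕ → ℕ → ℝ} (h : ∀ a b c d, A a b c d ≤ B a b c d) (L : CL) :
    L.mass A ≤ L.mass B := by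
  induction L with
  | nil => exact le_rfl
  | cons w x0 x1 y0 y1 t ih =>
    exact add_le_add (mul_le_mul_of_nonneg_left (h _ _ _ _) (Nat.cast_nonneg w)) ih

theorem sub_Sq {a b t k1 k2 u v R pp pm qp qm : ℝ} (ha : 0 < a) (hab : a ^ 2 + b ^ 2 = 1)
    (ht : t * a = 1024 * b) (hR : R * a ≤ 4194304) (u0 : 0 ≤ u) (u1 : u ≤ 1024) (v0 : 0 ≤ v)
    (v1 : v ≤ 1024)
    (hpp : pp = 20401094656 + k1 * 4194304 + t * (k2 * 4096 + 3145728) + u * R)
    (hqp : qp = 20401094656 + k2 * 4194304 + v * R - t * (k1 * 4096 + 3145728))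
    (hpm : pp - 1024 * R ≤ pm) (hqm : qp - 1024 * R ≤ qm) :
    SV (1024 * t) pp pm qp qm ⊆ Sq (4 * k1 + 3072 + (4 * u - 2048) * a - (4 * v - 2048) * b)
      (4 * k2 + 3072 + (4 * u - 2048) * b + (4 * v - 2048) * a) a b := by
  rintro ⟨x, y⟩ ⟨h1, h2, h3, h4⟩
  simp only [upR, dnR] at h1 h2 h3 h4
  have g1 := mul_lt_mul_of_pos_right (hpm.trans_lt h1) ha
  have g2 := mul_lt_mul_of_pos_right h2 ha
  have g3 := mul_lt_mul_of_pos_right (hqm.trans_lt h3) ha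
  have g4 := mul_lt_mul_of_pos_right h4 ha
  have m1 := mul_le_mul_of_nonneg_left hR u0
  have m2 := mul_le_mul_of_nonneg_left hR (sub_nonneg.2 u1)
  have m3 := mul_le_mul_of_nonneg_left hR v0
  have m4 := mul_le_mul_of_nonneg_left hR (sub_nonneg.2 v1)
  subst hpp hqp
  refine ⟨abs_lt.2 ⟨?_, ?_⟩, abs_lt.2 ⟨?_, ?_⟩⟩ <;> simp only
  · linear_combination (1 / 2 ^ 20) * g1 + (1 / 2 ^ 20) * m2 + (4 * u - 2048) * hab +
      (1 / 2 ^ 20) * (1024 * y - k2 * 4096 - 3145728) * ht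
  · linear_combination (1 / 2 ^ 20) * g2 + (1 / 2 ^ 20) * m1 - (4 * u - 2048) * hab -
      (1 / 2 ^ 20) * (1024 * y - k2 * 4096 - 3145728) * ht
  · linear_combination (1 / 2 ^ 20) * g3 + (1 / 2 ^ 20) * m4 + (4 * v - 2048) * hab -
      (1 / 2 ^ 20) * (1024 * x - k1 * 4096 - 3145728) * ht
  · linear_combination (1 / 2 ^ 20) * g4 + (1 / 2 ^ 20) * m3 - (4 * v - 2048) * hab +
      (1 / 2 ^ 20) * (1024 * x - k1 * 4096 - 3145728) * ht

theorem leaf2_sound (L : CL) (hL : L.ok) (M : ℕ) {y : Ty} (hy : TyOK y) (tm tl th sl sh rl rh al be : ℕ)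
    (hab : al * al + be * be ≤ 16777216) (b1 : th ≤ 1024) (b2 : sh ≤ 1024) (b3 : rh ≤ 1024)
    (h : leaf2 L M y tm tl th sl sh rl rh al be = true) (t s r : ℝ) (t1 : tl ≤ t) (t2 : t ≤ th)
    (s1 : sl ≤ s) (s2 : s ≤ sh) (r1 : rl ≤ r) (r2 : r ≤ rh) : GT L M y t s r := by
  intro a b ha hn hta
  have c1 : tl ≤ 1024 := le_trans (by exact_mod_cast t1.trans t2) b1
  have c2 : sl ≤ 1024 := le_trans (by exact_mod_cast s1.trans s2) b2
  have s0 : 0 ≤ s := (Nat.cast_nonneg _).trans s1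
  have r0 : 0 ≤ r := (Nat.cast_nonneg _).trans r1
  have s3 : s ≤ 1024 := s2.trans (by exact_mod_cast b2)
  have r3 : r ≤ 1024 := r2.trans (by exact_mod_cast b3)
  obtain ⟨p, hp, ep⟩ := ex_par t1 t2
  obtain ⟨q, hq, eq⟩ := ex_par s1 s2
  obtain ⟨w, hw, ew⟩ := ex_par r1 r2
  unfold leaf2 all8 low8 at h
  simp only [mk8_eq, mk4_eq] at h
  have key := leaf3_sound (l := tri p q w hp hq hw) L hL M _ _ _ _ _ _ _ _ _ _ _
    (show tl * 1024 ≤ 2 ^ 20 by omega) (show th * 1024 ≤ 2 ^ 20 by omega) (areaOK _ _ _ _ _) h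
  refine key.trans (mul_le_mul_of_nonneg_left (mass_mono (fun _ _ _ _ => ar_mono ?_ _ _ _ _) L)
    (by positivity))
  have e1 : (tri p q w hp hq hw).mix (tl * 1024 : ℕ) (th * 1024 : ℕ) = 1024 * t := by
    simp only [L8.mix, tri, ep]; push_cast; ring
  have e2 : (tri p q w hp hq hw).mix (1024 * rad al be tl : ℕ) (1024 * rad al be th : ℕ) =
      1024 * radR al be t := by
    simp only [L8.mix, tri, ep, Nat.cast_mul, rad_cast, radR]; push_cast; ring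
  rw [e1]
  have y3 : (y.a3 : ℝ) + y.bb * 1024 ≤ 1024 := by exact_mod_cast hy.h3
  have y4 : (y.a4 : ℝ) + y.bb * 1024 ≤ 1024 := by exact_mod_cast hy.h4
  have hab' : (al : ℝ) * al + be * be ≤ 16777216 := by exact_mod_cast hab
  refine sub_Sq (R := radR al be t) ha hn hta ?_ (by positivity) (le_trans (by gcongr) y3)
    (by positivity) (le_trans (by gcongr) y4) ?_ ?_ ?_ ?_
  · have : radR al be t * a = 1024 * (al * a + be * b) := by
      unfold radR; linear_combination be * hta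
    rw [this]
    nlinarith [sq_nonneg (al - 4096 * a), sq_nonneg (be - 4096 * b)]
  · simp only [L8.dot, tri, vP_cast, vPR, radR, ep, eq, ew]; ring
  · simp only [L8.dot, tri, vQ_cast hy _ _ _ _ _ c1 c2, vQ_cast hy _ _ _ _ _ c1 b2,
      vQ_cast hy _ _ _ _ _ b1 c2, vQ_cast hy _ _ _ _ _ b1 b2, vQR, radR, ep, eq, ew]
    ring
  · rw [← e2, ← dot_c8]
    exact (le_max_left _ _).trans (dot_sub _ _ _)
  · rw [← e2, ← dot_c8]
    exact (le_max_left _ _).trans (dot_sub _ _ _)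

theorem leaf_sound (L : CL) (hL : L.ok) (M : ℕ) {y : Ty} (hy : TyOK y) (tl th sl sh rl rh : ℕ)
    (b1 : th ≤ 1024) (b2 : sh ≤ 1024) (b3 : rh ≤ 1024) (h : leaf L M y tl th sl sh rl rh = true)
    (t s r : ℝ) (t1 : tl ≤ t) (t2 : t ≤ th) (s1 : sl ≤ s) (s2 : s ≤ sh) (r1 : rl ≤ r) (r2 : r ≤ rh) :
    GT L M y t s r := by
  unfold leaf at h
  simp only [frc_eq] at h
  obtain ⟨h1, h2⟩ := (andb_eq _ _).1 h
  exact leaf2_sound L hL M hy _ _ _ _ _ _ _ _ _ (Nat.le_of_ble_eq_true h1) b1 b2 b3 h2 t s r t1 t2 s1 s2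
    r1 r2

end Pool.Agent.P.MP_53fdf1_co
end

-- part Pool.Agent.P.MP_53fdf1_co.Data
section

set_option autoImplicit false

namespace Pool.Agent.P.MP_53fdf1_co

def cells : CL :=
  CL.cons (nat_lit 88) (nat_lit 0) (nat_lit 1024) (nat_lit 1024) (nat_lit 2048) <|
  CL.cons (nat_lit 162) (nat_lit 0) (nat_lit 1024) (nat_lit 2048) (nat_lit 3072) <|
  CL.cons (nat_lit 135) (nat_lit 0) (nat_lit 1024) (nat_lit 3072) (nat_lit 4096) <|
  CL.cons (nat_lit 121) (nat_lit 0) (nat_lit 1024) (nat_lit 4096) (nat_lit 5120) <|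
  CL.cons (nat_lit 121) (nat_lit 0) (nat_lit 1024) (nat_lit 5120) (nat_lit 6144) <|
  CL.cons (nat_lit 135) (nat_lit 0) (nat_lit 1024) (nat_lit 6144) (nat_lit 7168) <|
  CL.cons (nat_lit 162) (nat_lit 0) (nat_lit 1024) (nat_lit 7168) (nat_lit 8192) <|
  CL.cons (nat_lit 88) (nat_lit 0) (nat_lit 1024) (nat_lit 8192) (nat_lit 9216) <|
  CL.cons (nat_lit 88) (nat_lit 1024) (nat_lit 2048) (nat_lit 0) (nat_lit 1024) <|
  CL.cons (nat_lit 150) (nat_lit 1024) (nat_lit 2048) (nat_lit 1024) (nat_lit 2048) <|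
  CL.cons (nat_lit 152) (nat_lit 1024) (nat_lit 2048) (nat_lit 2048) (nat_lit 3072) <|
  CL.cons (nat_lit 151) (nat_lit 1024) (nat_lit 2048) (nat_lit 3072) (nat_lit 4096) <|
  CL.cons (nat_lit 105) (nat_lit 1024) (nat_lit 2048) (nat_lit 4096) (nat_lit 5120) <|
  CL.cons (nat_lit 105) (nat_lit 1024) (nat_lit 2048) (nat_lit 5120) (nat_lit 6144) <|
  CL.cons (nat_lit 151) (nat_lit 1024) (nat_lit 2048) (nat_lit 6144) (nat_lit 7168) <|
  CL.cons (nat_lit 152) (nat_lit 1024) (nat_lit 2048) (nat_lit 7168) (nat_lit 8192) <|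
  CL.cons (nat_lit 150) (nat_lit 1024) (nat_lit 2048) (nat_lit 8192) (nat_lit 9216) <|
  CL.cons (nat_lit 88) (nat_lit 1024) (nat_lit 2048) (nat_lit 9216) (nat_lit 10240) <|
  CL.cons (nat_lit 162) (nat_lit 2048) (nat_lit 3072) (nat_lit 0) (nat_lit 1024) <|
  CL.cons (nat_lit 152) (nat_lit 2048) (nat_lit 3072) (nat_lit 1024) (nat_lit 2048) <|
  CL.cons (nat_lit 123) (nat_lit 2048) (nat_lit 3072) (nat_lit 2048) (nat_lit 3072) <|
  CL.cons (nat_lit 123) (nat_lit 2048) (nat_lit 3072) (nat_lit 7168) (nat_lit 8192) <|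
  CL.cons (nat_lit 152) (nat_lit 2048) (nat_lit 3072) (nat_lit 8192) (nat_lit 9216) <|
  CL.cons (nat_lit 162) (nat_lit 2048) (nat_lit 3072) (nat_lit 9216) (nat_lit 10240) <|
  CL.cons (nat_lit 135) (nat_lit 3072) (nat_lit 4096) (nat_lit 0) (nat_lit 1024) <|
  CL.cons (nat_lit 151) (nat_lit 3072) (nat_lit 4096) (nat_lit 1024) (nat_lit 2048) <|
  CL.cons (nat_lit 151) (nat_lit 3072) (nat_lit 4096) (nat_lit 8192) (nat_lit 9216) <|
  CL.cons (nat_lit 135) (nat_lit 3072) (nat_lit 4096) (nat_lit 9216) (nat_lit 10240) <|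
  CL.cons (nat_lit 121) (nat_lit 4096) (nat_lit 5120) (nat_lit 0) (nat_lit 1024) <|
  CL.cons (nat_lit 105) (nat_lit 4096) (nat_lit 5120) (nat_lit 1024) (nat_lit 2048) <|
  CL.cons (nat_lit 256) (nat_lit 4096) (nat_lit 5120) (nat_lit 4096) (nat_lit 5120) <|
  CL.cons (nat_lit 256) (nat_lit 4096) (nat_lit 5120) (nat_lit 5120) (nat_lit 6144) <|
  CL.cons (nat_lit 105) (nat_lit 4096) (nat_lit 5120) (nat_lit 8192) (nat_lit 9216) <|
  CL.cons (nat_lit 121) (nat_lit 4096) (nat_lit 5120) (nat_lit 9216) (nat_lit 10240) <|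
  CL.cons (nat_lit 121) (nat_lit 5120) (nat_lit 6144) (nat_lit 0) (nat_lit 1024) <|
  CL.cons (nat_lit 105) (nat_lit 5120) (nat_lit 6144) (nat_lit 1024) (nat_lit 2048) <|
  CL.cons (nat_lit 256) (nat_lit 5120) (nat_lit 6144) (nat_lit 4096) (nat_lit 5120) <|
  CL.cons (nat_lit 256) (nat_lit 5120) (nat_lit 6144) (nat_lit 5120) (nat_lit 6144) <|
  CL.cons (nat_lit 105) (nat_lit 5120) (nat_lit 6144) (nat_lit 8192) (nat_lit 9216) <|
  CL.cons (nat_lit 121) (nat_lit 5120) (nat_lit 6144) (nat_lit 9216) (nat_lit 10240) <|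
  CL.cons (nat_lit 135) (nat_lit 6144) (nat_lit 7168) (nat_lit 0) (nat_lit 1024) <|
  CL.cons (nat_lit 151) (nat_lit 6144) (nat_lit 7168) (nat_lit 1024) (nat_lit 2048) <|
  CL.cons (nat_lit 151) (nat_lit 6144) (nat_lit 7168) (nat_lit 8192) (nat_lit 9216) <|
  CL.cons (nat_lit 135) (nat_lit 6144) (nat_lit 7168) (nat_lit 9216) (nat_lit 10240) <|
  CL.cons (nat_lit 162) (nat_lit 7168) (nat_lit 8192) (nat_lit 0) (nat_lit 1024) <|
  CL.cons (nat_lit 152) (nat_lit 7168) (nat_lit 8192) (nat_lit 1024) (nat_lit 2048) <|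
  CL.cons (nat_lit 123) (nat_lit 7168) (nat_lit 8192) (nat_lit 2048) (nat_lit 3072) <|
  CL.cons (nat_lit 123) (nat_lit 7168) (nat_lit 8192) (nat_lit 7168) (nat_lit 8192) <|
  CL.cons (nat_lit 152) (nat_lit 7168) (nat_lit 8192) (nat_lit 8192) (nat_lit 9216) <|
  CL.cons (nat_lit 162) (nat_lit 7168) (nat_lit 8192) (nat_lit 9216) (nat_lit 10240) <|
  CL.cons (nat_lit 88) (nat_lit 8192) (nat_lit 9216) (nat_lit 0) (nat_lit 1024) <|
  CL.cons (nat_lit 150) (nat_lit 8192) (nat_lit 9216) (nat_lit 1024) (nat_lit 2048) <|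
  CL.cons (nat_lit 152) (nat_lit 8192) (nat_lit 9216) (nat_lit 2048) (nat_lit 3072) <|
  CL.cons (nat_lit 151) (nat_lit 8192) (nat_lit 9216) (nat_lit 3072) (nat_lit 4096) <|
  CL.cons (nat_lit 105) (nat_lit 8192) (nat_lit 9216) (nat_lit 4096) (nat_lit 5120) <|
  CL.cons (nat_lit 105) (nat_lit 8192) (nat_lit 9216) (nat_lit 5120) (nat_lit 6144) <|
  CL.cons (nat_lit 151) (nat_lit 8192) (nat_lit 9216) (nat_lit 6144) (nat_lit 7168) <|
  CL.cons (nat_lit 152) (nat_lit 8192) (nat_lit 9216) (nat_lit 7168) (nat_lit 8192) <|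
  CL.cons (nat_lit 150) (nat_lit 8192) (nat_lit 9216) (nat_lit 8192) (nat_lit 9216) <|
  CL.cons (nat_lit 88) (nat_lit 8192) (nat_lit 9216) (nat_lit 9216) (nat_lit 10240) <|
  CL.cons (nat_lit 88) (nat_lit 9216) (nat_lit 10240) (nat_lit 1024) (nat_lit 2048) <|
  CL.cons (nat_lit 162) (nat_lit 9216) (nat_lit 10240) (nat_lit 2048) (nat_lit 3072) <|
  CL.cons (nat_lit 135) (nat_lit 9216) (nat_lit 10240) (nat_lit 3072) (nat_lit 4096) <|
  CL.cons (nat_lit 121) (nat_lit 9216) (nat_lit 10240) (nat_lit 4096) (nat_lit 5120) <|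
  CL.cons (nat_lit 121) (nat_lit 9216) (nat_lit 10240) (nat_lit 5120) (nat_lit 6144) <|
  CL.cons (nat_lit 135) (nat_lit 9216) (nat_lit 10240) (nat_lit 6144) (nat_lit 7168) <|
  CL.cons (nat_lit 162) (nat_lit 9216) (nat_lit 10240) (nat_lit 7168) (nat_lit 8192) <|
  CL.cons (nat_lit 88) (nat_lit 9216) (nat_lit 10240) (nat_lit 8192) (nat_lit 9216) <|
  CL.nil

def ty0 : Ty := ⟨nat_lit 1, nat_lit 0, nat_lit 0, nat_lit 0, nat_lit 512, nat_lit 512⟩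
def ty1 : Ty := ⟨nat_lit 0, nat_lit 1, nat_lit 1024, nat_lit 1024, nat_lit 0, nat_lit 0⟩
def ty2 : Ty := ⟨nat_lit 1, nat_lit 0, nat_lit 0, nat_lit 0, nat_lit 1024, nat_lit 0⟩
def ty3 : Ty := ⟨nat_lit 1, nat_lit 0, nat_lit 0, nat_lit 0, nat_lit 1024, nat_lit 1024⟩

noncomputable def chk (y : Ty) (tl th sl rl cd : ℕ) : Bool :=
  Nat.beq (bb (leaf cells (nat_lit 2202932630228537) y) (nat_lit 40) tl th sl (nat_lit 1024) rl
    (nat_lit 1024) cd) (nat_lit 1)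

end Pool.Agent.P.MP_53fdf1_co
end
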