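import Pool.Agent.K.MP_53fdf1_co.C0

set_option autoImplicit false
set_option maxRecDepth 100000

namespace Pool.Agent.P.MP_53fdf1_co

theorem c0_0 : chk ty0 0 128 512 512
    0x4202c1b00e40be03c381204b00b482088322d0106ef00106c3bec301e00106c07069c2002fbbb080ec2304c13430e07041809c0501704fd8103076040dbe0103600e78304098060bef832e = true := by
  decide +kernel

theorem c0_1 : chk ty0 128 256 512 512
    0x420812f00ae041820b029c110c781041e04107b0441ec30e04c07bb0c0c3a04b0806f832081b084ee = true := by
  decide +kernel

theorem c0_2 : chk ty0 256 384 512 512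
    0x430411c0bb02c32e04382430a0398106041b0c3430dac10c6308241c1ec21041f01e041c3bb082c20e08f820b0c3b0ee = true := by
  decide +kernel

theorem c0_3 : chk ty0 384 512 512 512
    0x420b043104407ac1042cbb02c30ee084121830504816c10704ec12041b0405806f81230c38ec10706204414cb0c2bb0382c20b0b8320b0cee = true := by
  decide +kernel

theorem c0_4 : chk ty0 512 640 512 512
    0x40cb0e0c481081704309ec0604105c3bb08205c130ee0c3420dc20c390c1378130ec1204b041f8308ec0601b0608cb081bb0c280ec306380b0e08f0cee = true := by
  decide +kernel

theorem c0_5 : chk ty0 640 768 512 512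
    0x4201c3b082e041c38120b41201b810604a0c341b0c3af0406c073820f03ee04c2382c30e0b820bc301e0c1b0c32bb0c3830ac13238120b08f0c8ee = true := by
  decide +kernel

theorem c0_6 : chk ty0 768 896 512 512
    0x420e08a01c078204bb014181104076c10704ec1204b0c3bb0c1410bc10e0783208b01ee0c281c238207c20a01b0bb082c0702ec20b3820704e08f04cee = true := by
  decide +kernel

theorem c0_7 : chk ty0 896 1024 512 512
    0x43041e0c13b0c380e041c3be04180506c120b8130e0c3af01812c30e813201b0cac13060a080bbe0c382c3820bc20e02b03bb04cc13830602c2bc1204b02f8106304e08f02cee = true := by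
  decide +kernel

end Pool.Agent.P.MP_53fdf1_co
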