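import Pool.Agent.K.MP_53fdf1_co.C0

set_option autoImplicit false
set_option maxRecDepth 100000

namespace Pool.Agent.P.MP_53fdf1_co

theorem c2_0 : chk ty2 0 128 256 512
    0x401b042e08c082b4208421820ad820ad01b301001bac12082c0b507020c3b8008e5308480a411e40c413a09e4231003a9c10602341070c367014090141be001fc02f82041908708106421e41106309c0f02e08106420419810610846d04182c2790181c10642c0507307823178084ee0c104e3b01014fc0041bf830e0c3827082420982110846c2d0c3830e0419c20b082e08c2390b6410902608270419c010e7043806041b04202de604c1060b04c139b0830608d4131c044f009806c060b0860cb41308dd80902805b0c134130db03c10507e02c3830e820a40ad80160b04c1c38136d8100681c3060b6c1204b02d0412e02ca083418124120270417812041f0681206090ef0c3830e081a0829430a04182820a58220a081421810241f983050c16090c140782608106418106209ec20a3090886d0c3783041181e01b0803982c042eee = true := by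
  decide +kernel

theorem c2_1 : chk ty2 128 256 256 512
    0x4201243b04f0041dc00750c076005c208560405c3041d8201405c1079b831081c0634ee0c23b0181064120806508242049fc2090803990058130182019e7810530438063604bc10d041b083410be0801e407180a018106d0c80f6d0841c12430490c19e04c2078130908640504ec20931b810e0708343820aee = true := by
  decide +kernel

theorem c2_2 : chk ty2 256 384 256 512
    0x4302c20b70c01b01c0798304181ee0841c20bb040dc1050783050417810704411e0411b03812d804d0270812423ec2082702406085e0c1050bb0441c1c10b08d04279044181016c109041820978107090c34641086041904c11b048235e02411810601bc10a0b04c813db812308411812c3046ee = true := by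
  decide +kernel

end Pool.Agent.P.MP_53fdf1_co
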