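import Pool.Agent.K.MP_53fdf1_co.C0

set_option autoImplicit false
set_option maxRecDepth 100000

namespace Pool.Agent.P.MP_53fdf1_co

theorem c2_3 : chk ty2 384 512 256 512
    0x401c1b00780a0239e0c412c233b0143025c2301d0141c30d60c078104e780630181242ec3090430db04c8220942107e0c340609c207042d9041806c210782090701411e708240601bc060413b410a04904c3406431b8104e04190411b0841811ec07041e08206d0c41812019e04181c0190817b60c14130d8209c13304e04c11079042c27b8230e0c70842c30604b813041eee = true := by
  decide +kernel

theorem c2_4 : chk ty2 512 640 256 512
    0x40722024812f080ae0411c05c38281204bc0e0bb0181c3041e0c10790118106781308e0c2339c090170407c102f5040b81082e40b082d0142c2076c07042d08c1604821c182106760434046c10b012901b406018d041c1360413830670c38234061db041c3830b41204b082dc3205040581082774090434105b0140d80701e082439d82070821d041c3810701e60406c060b43041d04c16b0418106c20b02d4104e039c10704e041c904c81279e04c1433381304e4208c25c1304d041f0c34181e04241c13904c1827b830603b041c10b0b83081eee = true := by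
  decide +kernel

theorem c2_5 : chk ty2 640 768 256 512
    0x40720430dc388b0e04812c0724204b041c9c81302f0c14107d062c20bb0c0904107b80701806ec102d014104164040760343041d9e01c0601b4050c076043041db0c134107081d810504c136db014058060d810e0806d082c0b6c20b0812d02c381070e7044105016e4201d041e041c107b081c07830e0419420b082dd01410781060817c30601c190482c101e76e04c0607410463080641d810607c0e070c2e04c1c130b904c134105c10504160417904c1381304e7b830e043b081cc2090b83082eee = true := by
  decide +kernel

end Pool.Agent.P.MP_53fdf1_co
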