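import Pool.Agent.K.MP_53fdf1_co.C0

set_option autoImplicit false
set_option maxRecDepth 100000

namespace Pool.Agent.P.MP_53fdf1_co

theorem c3_2 : chk ty3 256 384 0 256
    0x412308e00ec202c0701ebb0431830ec320c390a081041ec20106c12042b7b804e0811c1308413eb02401980e0c36c0906044105b0414205b081c1060411b810702e7807041e02411e04c10b806018e7081060dc20d0e0c2140db810437041183060439e410604107b0182d04c0e50405c130d8070c50c2096c1060d082476eee = true := by
  decide +kernel

theorem c3_3 : chk ty3 384 512 0 256
    0x4113086304c218e0302ec0360206c20bbb014c21803ac1207202c03b404bb8210282e028106c20c604c207bb038301c136c20350160812c101b40e049040582097b81047081406019e0c183401a01b0c2410479b082c20e4106c10c3604405b40870419082604305807070c35b01c0704981041a0c19d810470406c10760443107b04106c078101b01e420901d0870414209ee04107820504076c12041b0812d04c0742107b9eee = true := by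
  decide +kernel

theorem c3_4 : chk ty3 512 640 0 256
    0x420933084ce30824cc050860b0b0b82e00b02041bec10e080706c208bbb04c138090816041b0b0b8302ec13024e0814ce02c2b80b082e0810ec10601c0bbb0180ec200eb410e006c30742042b08110edb820c25038102ac201b60181c341060180660420907b0410d806db0431c04278070c1804f6430701d042c20740e09e044107041d9c0502e04105c1079012c101b41070406e0c139c1041d01c13407017b8310c60181701c341058208e05e78106042d0c3830e6040780b40701e08106d9081240605c1060419048127806304d041806c106047670cc341305078309070141ce8107041d08141e410904137041e048106412019c050279eeee = true := by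
  decide +kernel

end Pool.Agent.P.MP_53fdf1_co
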