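import Pool.Agent.K.MP_53fdf1_co.C0

set_option autoImplicit false
set_option maxRecDepth 100000

namespace Pool.Agent.P.MP_53fdf1_co

theorem c3_5 : chk ty3 640 768 0 256
    0x41230c163044218ce304132824cc0d0e04e0418d04c11381316382e02810421b0180b01d0c36ec3104e0c81060ec06041bbb0414c113046810608164cc1330ce04e0418cd04c13812363830ec209060b33048e0b810b082e08306c042a0c30dbb0480701ec204106c0db81041e038101e4104107e0430d9e01806c0601b4110411f0414106c107041ee0140601d8105014205edb0c80701e42050414107b08240605d02c20c9c0501e01c078202b76c10c90101dc09060804b0e7405005db83050141e04107b0182c106502c1070e410a0c19c107041e0139038067604118205c205041b830e01c07908124105e708124120419c0630c19c09042701c2378306041c13904183067042405f081241209c21e6eee = true := by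
  decide +kernel

theorem c3_6 : chk ty3 768 896 0 256
    0x410904180663304806410538ce301068241c205048163044105982cc105063018409390181241e07382e043820411c060421b02db001e807820904241b01c076ec0b02e048107041ec204c3bbb011820538c1018ce3410609048263041418d82cc050630844093904181206633830ec060907308124c1063630c438e0b820b042e0830ec041e041c107bb083041ec04b8101b0405830450c108176e0180641048076c1070409e01c070190c179041c1064307041e0c339bb041830807d04041b6c10141b8104b041e012c0780b0a041812b50c340d820c9810704c390c3830e67041c28201704126410e08260820742099eeee = true := by
  decide +kernel

end Pool.Agent.P.MP_53fdf1_co
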