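import Pool.Agent.K.MP_53fdf1_co.C0
import Pool.Agent.K.MP_53fdf1_co.C1
import Pool.Agent.K.MP_53fdf1_co.C2
import Pool.Agent.K.MP_53fdf1_co.C3
import Pool.Agent.K.MP_53fdf1_co.C4
import Pool.Agent.K.MP_53fdf1_co.C5
import Pool.Agent.K.MP_53fdf1_co.C6
import Pool.Agent.K.MP_53fdf1_co.C7
import Pool.Agent.K.MP_53fdf1_co.C8

-- part Pool.Agent.P.MP_53fdf1_co.Cert8
section

set_option autoImplicit false
set_option maxRecDepth 100000

namespace Pool.Agent.P.MP_53fdf1_co

theorem c3_7 : chk ty3 896 1024 0 256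
    0x410418e3018c1046338e0b041380641094106304405938c1204059040560b38c0501633041420450581ce078101ee01c0b803a08041ac20b4110c160418214105015bb04106c1078105041608604281241209bec20b02e01c2812041b041ec20c3bbb041380642049078c204250418066074c105081065040560738c105046304420581ce078070ec2090163063081058cc123930c342218e0b820b082e01830ec10c260c201bbb0806c078101b048209e0c410d81050416c0602c190c3820b4120c079bb040506c0d805041d0c1076042410680501601c07a7012418107042d0c81076eeee = true := by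
  decide +kernel

end Pool.Agent.P.MP_53fdf1_co
end

-- part Pool.Agent.P.MP_53fdf1_co.Tiles
section

set_option autoImplicit false

namespace Pool.Agent.P.MP_53fdf1_co

theorem cells_ok : cells.ok := by
  simp [cells, CL.ok]

theorem chk_sound {y : Ty} (hy : TyOK y) {tl th sl rl cd : ℕ} (h : chk y tl th sl rl cd = true)
    (h1 : tl ≤ th) (h2 : th ≤ 1024) (h3 : sl ≤ 1024) (h4 : rl ≤ 1024) (t s r : ℝ) (t0 : tl ≤ t)
    (t1 : t ≤ th) (s0 : sl ≤ s) (s1 : s ≤ 1024) (r0 : rl ≤ r) (r1 : r ≤ 1024) :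
    GT cells 2202932630228537 y t s r := by
  have e := Nat.eq_of_beq_eq_true h
  refine bb_sound (leaf cells 2202932630228537 y) (GT cells 2202932630228537 y)
    (fun tl th sl sh rl rh => leaf_sound cells cells_ok _ hy tl th sl sh rl rh) 40 tl th sl 1024 rl 1024 cd
    h2 le_rfl le_rfl h1 h3 h4 (fun h0 => ?_) t s r t0 t1 s0 (by exact_mod_cast s1) r0 (by exact_mod_cast r1)
  exact absurd (e.symm.trans h0) (by decide)

theorem slices {y : Ty} (hy : TyOK y) {sl rl d0 d1 d2 d3 d4 d5 d6 d7 : ℕ} (h3 : sl ≤ 1024)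
    (h4 : rl ≤ 1024) (c0 : chk y 0 128 sl rl d0 = true) (c1 : chk y 128 256 sl rl d1 = true)
    (c2 : chk y 256 384 sl rl d2 = true) (c3 : chk y 384 512 sl rl d3 = true)
    (c4 : chk y 512 640 sl rl d4 = true) (c5 : chk y 640 768 sl rl d5 = true)
    (c6 : chk y 768 896 sl rl d6 = true) (c7 : chk y 896 1024 sl rl d7 = true)
    (t s r : ℝ) (t0 : 0 ≤ t) (t1 : t ≤ 1024) (s0 : sl ≤ s) (s1 : s ≤ 1024) (r0 : rl ≤ r) (r1 : r ≤ 1024) :
    GT cells 2202932630228537 y t s r := by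
  rcases le_total t 128 with e0 | e0
  · exact chk_sound hy c0 (by norm_num) (by norm_num) h3 h4 t s r (by exact_mod_cast t0)
      (by exact_mod_cast e0) s0 s1 r0 r1
  rcases le_total t 256 with e1 | e1
  · exact chk_sound hy c1 (by norm_num) (by norm_num) h3 h4 t s r (by exact_mod_cast e0)
      (by exact_mod_cast e1) s0 s1 r0 r1
  rcases le_total t 384 with e2 | e2
  · exact chk_sound hy c2 (by norm_num) (by norm_num) h3 h4 t s r (by exact_mod_cast e1)
      (by exact_mod_cast e2) s0 s1 r0 r1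
  rcases le_total t 512 with e3 | e3
  · exact chk_sound hy c3 (by norm_num) (by norm_num) h3 h4 t s r (by exact_mod_cast e2)
      (by exact_mod_cast e3) s0 s1 r0 r1
  rcases le_total t 640 with e4 | e4
  · exact chk_sound hy c4 (by norm_num) (by norm_num) h3 h4 t s r (by exact_mod_cast e3)
      (by exact_mod_cast e4) s0 s1 r0 r1
  rcases le_total t 768 with e5 | e5
  · exact chk_sound hy c5 (by norm_num) (by norm_num) h3 h4 t s r (by exact_mod_cast e4)
      (by exact_mod_cast e5) s0 s1 r0 r1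
  rcases le_total t 896 with e6 | e6
  · exact chk_sound hy c6 (by norm_num) (by norm_num) h3 h4 t s r (by exact_mod_cast e5)
      (by exact_mod_cast e6) s0 s1 r0 r1
  exact chk_sound hy c7 (by norm_num) (by norm_num) h3 h4 t s r (by exact_mod_cast e6)
    (by exact_mod_cast t1) s0 s1 r0 r1

theorem tile0 (t s r : ℝ) (t0 : 0 ≤ t) (t1 : t ≤ 1024) (s0 : 512 ≤ s) (s1 : s ≤ 1024) (r0 : 512 ≤ r)
    (r1 : r ≤ 1024) : GT cells 2202932630228537 ty0 t s r :=
  slices ⟨by decide, by decide, by decide⟩ (by norm_num) (by norm_num) c0_0 c0_1 c0_2 c0_3 c0_4 c0_5 c0_6 c0_7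
    t s r t0 t1 (by exact_mod_cast s0) s1 (by exact_mod_cast r0) r1

theorem tile1 (t s r : ℝ) (t0 : 0 ≤ t) (t1 : t ≤ 1024) (s0 : 384 ≤ s) (s1 : s ≤ 1024) (r0 : 0 ≤ r)
    (r1 : r ≤ 1024) : GT cells 2202932630228537 ty1 t s r :=
  slices ⟨by decide, by decide, by decide⟩ (by norm_num) (by norm_num) c1_0 c1_1 c1_2 c1_3 c1_4 c1_5 c1_6 c1_7
    t s r t0 t1 (by exact_mod_cast s0) s1 (by exact_mod_cast r0) r1

theorem tile2 (t s r : ℝ) (t0 : 0 ≤ t) (t1 : t ≤ 1024) (s0 : 256 ≤ s) (s1 : s ≤ 1024) (r0 : 512 ≤ r)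
    (r1 : r ≤ 1024) : GT cells 2202932630228537 ty2 t s r :=
  slices ⟨by decide, by decide, by decide⟩ (by norm_num) (by norm_num) c2_0 c2_1 c2_2 c2_3 c2_4 c2_5 c2_6 c2_7
    t s r t0 t1 (by exact_mod_cast s0) s1 (by exact_mod_cast r0) r1

theorem tile3 (t s r : ℝ) (t0 : 0 ≤ t) (t1 : t ≤ 1024) (s0 : 0 ≤ s) (s1 : s ≤ 1024) (r0 : 256 ≤ r)
    (r1 : r ≤ 1024) : GT cells 2202932630228537 ty3 t s r :=
  slices ⟨by decide, by decide, by decide⟩ (by norm_num) (by norm_num) c3_0 c3_1 c3_2 c3_3 c3_4 c3_5 c3_6 c3_7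
    t s r t0 t1 (by exact_mod_cast s0) s1 (by exact_mod_cast r0) r1

end Pool.Agent.P.MP_53fdf1_co
end

-- part Pool.Agent.P.MP_53fdf1_co.Plane
section

set_option autoImplicit false

open MeasureTheory Set

namespace Pool.Agent.P.MP_53fdf1_co

def tw (k : ℕ) : ℕ :=
  if k = 513 then 16 else if k = 384 then 45 else if k = 336 then 43 else if k = 324 then 135 else if k = 321 then 105 else if k = 288 then 119 else if k = 258 then 256 else if k = 144 then 105 else if k = 132 then 16 else if k = 96 then 4 else 0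

def al (I : ℕ) : ℕ := if 5 ≤ I then 4 ^ (I - 5) else 4 ^ (4 - I)

/-- the weight of the cell with indices `I, J, K` -/
def T10 (I J K : ℕ) : ℕ := tw (al I + al J + al K)

def W10 (I J : ℕ) : ℕ := T10 0 I J + T10 1 I J + T10 2 I J

noncomputable def arc (S : Set (ℝ × ℝ)) (I J : ℕ) : ℝ :=
  ar S (1024 * I) (1024 * I + 1024) (1024 * J) (1024 * J + 1024)

noncomputable def mass2 (S : Set (ℝ × ℝ)) : ℝ :=
  ∑ I ∈ Finset.range 10, ∑ J ∈ Finset.range 10, (W10 I J : ℝ) * arc S I J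

theorem cells_mass (S : Set (ℝ × ℝ)) : cells.mass (ar S) = mass2 S := by
  simp only [mass2, Finset.sum_range_succ, Finset.sum_range_zero, arc, cells, CL.mass]
  norm_num [W10, T10, al, tw]
  ring

theorem W10_comm (I J : ℕ) : W10 I J = W10 J I := by
  simp only [W10, T10, add_right_comm _ (al I)]

theorem W10_refl : ∀ I < 10, ∀ J < 10, W10 (9 - I) J = W10 I J := by decide

def rho (z : ℝ × ℝ) : ℝ × ℝ := (10240 - z.1, z.2)

theorem rho_mp : MeasurePreserving rho volume volume :=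
  (Measure.measurePreserving_sub_left volume 10240).prod (MeasurePreserving.id volume)

theorem mass2_rho {S : Set (ℝ × ℝ)} (hS : MeasurableSet S) : mass2 (rho ⁻¹' S) = mass2 S := by
  unfold mass2
  rw [← Finset.sum_range_reflect]
  refine Finset.sum_congr rfl fun I hI => Finset.sum_congr rfl fun J hJ => ?_
  have hI' := Finset.mem_range.1 hI
  rw [W10_refl I hI' J (Finset.mem_range.1 hJ)]
  congr 1
  unfold arc ar
  rw [← rho_mp.measureReal_preimage (hS.inter (meas_box _ _ _ _)).nullMeasurableSet, preimage_inter]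
  congr 2
  ext z
  have e : ((10 - 1 - I : ℕ) : ℝ) = 9 - I := by
    rw [show 10 - 1 - I = 9 - I from rfl, Nat.cast_sub (by omega)]; norm_num
  simp only [box, rho, mem_prod, mem_Ioo, mem_preimage, Nat.cast_add, Nat.cast_mul, e, Nat.cast_ofNat]
  constructor <;> rintro ⟨⟨h1, h2⟩, h3⟩ <;> exact ⟨⟨by linarith, by linarith⟩, h3⟩

theorem mass2_swap {S : Set (ℝ × ℝ)} (hS : MeasurableSet S) : mass2 (Prod.swap ⁻¹' S) = mass2 S := by
  unfold mass2
  rw [Finset.sum_comm]
  refine Finset.sum_congr rfl fun I _ => Finset.sum_congr rfl fun J _ => ?_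
  rw [W10_comm]
  congr 1
  unfold arc ar
  have mp : MeasurePreserving (Prod.swap : ℝ × ℝ → ℝ × ℝ) volume volume := Measure.measurePreserving_swap
  rw [← mp.measureReal_preimage (hS.inter (meas_box _ _ _ _)).nullMeasurableSet, preimage_inter]
  congr 2
  ext z
  simp only [box, mem_prod, mem_preimage, Prod.fst_swap, Prod.snd_swap, and_comm]

theorem open_Sq (c1 c2 a b : ℝ) : IsOpen (Sq c1 c2 a b) := by
  unfold Sq
  rw [ofPred_and]
  exact (isOpen_lt (by fun_prop) continuous_const).inter (isOpen_lt (by fun_prop) continuous_const)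

/-- the closed square meets the central square of side `4096` -/
def Meet (c1 c2 a b : ℝ) : Prop :=
  ∃ x y : ℝ, 3072 ≤ x ∧ x ≤ 7168 ∧ 3072 ≤ y ∧ y ≤ 7168 ∧
    |a * (x - c1) + b * (y - c2)| ≤ 2048 ∧ |a * (y - c2) - b * (x - c1)| ≤ 2048

def Good (c1 c2 a b : ℝ) : Prop :=
  a ^ 2 + b ^ 2 = 1 → Meet c1 c2 a b → (2202932630228537 : ℝ) ≤ 2 ^ 21 * mass2 (Sq c1 c2 a b)

theorem good_base {c1 c2 a b : ℝ} (h1 : 5120 ≤ c1) (h2 : 5120 ≤ c2) (hb : 0 ≤ b) (hab : b ≤ a) :
    Good c1 c2 a b := by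
  rintro hn ⟨x, y, x0, x1, y0, y1, m1, m2⟩
  have ha : 0 < a := by
    by_contra h
    have : a = 0 := by linarith
    have : b = 0 := by linarith
    subst a b
    norm_num at hn
  obtain ⟨m1, m1'⟩ := abs_le.1 m1
  obtain ⟨m2, m2'⟩ := abs_le.1 m2
  have t0 : 0 ≤ 1024 * b / a := by positivity
  have t1 : 1024 * b / a ≤ 1024 := by rw [div_le_iff₀ ha]; linarith
  have te : 1024 * b / a * a = 1024 * b := by field_simp
  have w1 : a + b ≤ 3 / 2 := by nlinarith [sq_nonneg (a - b), sq_nonneg (a + b - 3 / 2)]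
  have a1 : a ≤ 1 := by nlinarith
  have p1 : c1 ≤ 7168 + 2048 * (a + b) := by
    have e1 := mul_le_mul_of_nonneg_left m1 ha.le
    have e2 := mul_le_mul_of_nonneg_left m2' hb
    linear_combination e1 + e2 + x1 + (x - c1) * hn
  have p2 : c2 ≤ 7168 + 2048 * (a + b) := by
    have e1 := mul_le_mul_of_nonneg_left m1 hb
    have e2 := mul_le_mul_of_nonneg_left m2 ha.le
    linear_combination e1 + e2 + y1 + (y - c2) * hn
  have p3 : a * (c1 - 7168) + b * (c2 - 7168) ≤ 2048 := by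
    have e1 := mul_le_mul_of_nonneg_left x1 ha.le
    have e2 := mul_le_mul_of_nonneg_left y1 hb
    linear_combination e1 + e2 + m1
  rw [← cells_mass]
  by_cases k0 : c1 ≤ 7168 ∧ c2 ≤ 7168
  · have := tile0 _ ((c1 - 3072) / 4) ((c2 - 3072) / 4) t0 t1 (by linarith) (by linarith [k0.1])
      (by linarith) (by linarith [k0.2]) a b ha hn te
    convert this using 5 <;> simp [ty0] <;> ring
  by_cases k2 : 7168 ≤ c1 ∧ c2 + 2048 * (a - b) ≤ 7168
  · have := tile2 _ ((c1 - 2048 * (a + b) - 3072) / 4) ((c2 + 2048 * (a - b) - 3072) / 4) t0 t1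
      (by linarith [k2.1]) (by linarith) (by linarith) (by linarith [k2.2]) a b ha hn te
    convert this using 5 <;> simp [ty2] <;> ring
  by_cases k3 : 7168 ≤ c2 ∧ c1 - 2048 * (a - b) ≤ 7168
  · have := tile3 _ ((c1 - 2048 * (a - b) - 3072) / 4) ((c2 - 2048 * (a + b) - 3072) / 4) t0 t1
      (by linarith) (by linarith [k3.2]) (by linarith [k3.1]) (by linarith) a b ha hn te
    convert this using 5 <;> simp [ty3] <;> ring
  have q1 : 7168 ≤ c1 := by
    by_contra h
    exact k3 ⟨by by_contra h'; exact k0 ⟨by linarith, by linarith⟩, by linarith⟩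
  have q2 : 7168 ≤ c2 + 2048 * (a - b) := by
    by_contra h
    exact k2 ⟨q1, by linarith⟩
  have e1 := mul_le_mul_of_nonneg_left q1 ha.le
  have e2 := mul_le_mul_of_nonneg_left q2 hb
  have e3 := mul_le_mul_of_nonneg_left q2 ha.le
  have e4 := mul_le_mul_of_nonneg_left p1 hb
  have q3 : a * (c2 - 7168) - b * (c1 - 7168) ≤ 2048 := by
    by_cases h : c2 ≤ 7168
    · nlinarith [mul_le_mul_of_nonneg_left h ha.le, mul_le_mul_of_nonneg_left q1 hb]
    · have h' : 7168 ≤ c1 - 2048 * (a - b) := by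
        by_contra h'
        exact k3 ⟨by linarith, by linarith⟩
      linear_combination mul_le_mul_of_nonneg_left h' hb + mul_le_mul_of_nonneg_left p2 ha.le + 2048 * hn
  have q4 : b * (a - b) ≤ 1 / 4 := by nlinarith [sq_nonneg (a - 2 * b), sq_nonneg b]
  have := tile1 _ ((a * (c1 - 7168) + b * (c2 - 7168) + 2048) / 4)
    ((a * (c2 - 7168) - b * (c1 - 7168) + 2048) / 4) t0 t1 (by linarith) (by linarith)
    (by linear_combination (1 / 4) * e3 + (1 / 4) * e4 + 512 * hn) (by linarith) a b ha hn te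
  convert this using 5
  · simp
  · simp only [ty1]; push_cast; linear_combination (7168 - c1) * hn
  · simp only [ty1]; push_cast; linear_combination (7168 - c2) * hn

theorem good_of {c1 c2 a b d1 d2 a' b' : ℝ} (f : ℝ × ℝ → ℝ × ℝ)
    (hm : ∀ S, MeasurableSet S → mass2 (f ⁻¹' S) = mass2 S) (hn : a ^ 2 + b ^ 2 = 1 → a' ^ 2 + b' ^ 2 = 1)
    (hM : Meet c1 c2 a b → Meet d1 d2 a' b') (hS : Sq c1 c2 a b = f ⁻¹' Sq d1 d2 a' b')
    (h : Good d1 d2 a' b') : Good c1 c2 a b := fun h1 h2 => by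
  rw [hS, hm _ (open_Sq _ _ _ _).measurableSet]
  exact h (hn h1) (hM h2)

theorem good_swap {c1 c2 a b : ℝ} (h : Good c2 c1 b a) : Good c1 c2 a b := by
  have e1 : ∀ p q : ℝ, |b * q + a * p| = |a * p + b * q| := fun p q => by rw [add_comm]
  have e2 : ∀ p q : ℝ, |b * p - a * q| = |a * q - b * p| := fun p q => abs_sub_comm _ _
  refine good_of Prod.swap (fun _ => mass2_swap) (fun h => by linarith) ?_ ?_ h
  · rintro ⟨x, y, x0, x1, y0, y1, m1, m2⟩
    exact ⟨y, x, y0, y1, x0, x1, by rwa [e1], by rwa [e2]⟩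
  · ext z
    simp only [Sq, mem_preimage, mem_ofPred, Prod.fst_swap, Prod.snd_swap]
    rw [e1 (z.1 - c1), e2 (z.1 - c1)]

theorem good_rot {c1 c2 a b : ℝ} (h : Good c1 c2 (-b) a) : Good c1 c2 a b := by
  have e1 : ∀ p q : ℝ, |-b * p + a * q| = |a * q - b * p| := fun p q => by congr 1; ring
  have e2 : ∀ p q : ℝ, |-b * q - a * p| = |a * p + b * q| := fun p q => by
    rw [← abs_neg]; congr 1; ring
  refine good_of id (fun _ _ => rfl) (fun h => by linarith) ?_ ?_ h
  · rintro ⟨x, y, x0, x1, y0, y1, m1, m2⟩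
    exact ⟨x, y, x0, x1, y0, y1, by rwa [e1], by rwa [e2]⟩
  · ext z
    simp only [Sq, mem_preimage, mem_ofPred, id]
    rw [e1, e2, and_comm]

theorem good_rho {c1 c2 a b : ℝ} (h : Good (10240 - c1) c2 a (-b)) : Good c1 c2 a b := by
  have e1 : ∀ x q : ℝ, |a * (10240 - x - (10240 - c1)) + -b * q| = |a * (x - c1) + b * q| := fun p q => by
    rw [← abs_neg]; congr 1; ring
  have e2 : ∀ x q : ℝ, |a * q - -b * (10240 - x - (10240 - c1))| = |a * q - b * (x - c1)| := fun p q => by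
    congr 1; ring
  refine good_of rho (fun _ => mass2_rho) (fun h => by linarith) ?_ ?_ h
  · rintro ⟨x, y, x0, x1, y0, y1, m1, m2⟩
    exact ⟨10240 - x, y, by linarith, by linarith, y0, y1, by rwa [e1], by rwa [e2]⟩
  · ext z
    simp only [Sq, mem_preimage, mem_ofPred, rho]
    rw [e1, e2]

theorem good_all (c1 c2 a b : ℝ) : Good c1 c2 a b := by
  have s1 : ∀ c1 c2 a b : ℝ, 5120 ≤ c1 → 5120 ≤ c2 → 0 ≤ a → 0 ≤ b → Good c1 c2 a b := by
    intro c1 c2 a b h1 h2 ha hb
    rcases le_total b a with h | h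
    · exact good_base h1 h2 hb h
    · exact good_swap (good_base h2 h1 ha h)
  have s2 : ∀ c1 c2 a b : ℝ, 5120 ≤ c1 → 5120 ≤ c2 → Good c1 c2 a b := by
    intro c1 c2 a b h1 h2
    rcases le_total 0 a with ha | ha <;> rcases le_total 0 b with hb | hb
    · exact s1 _ _ _ _ h1 h2 ha hb
    · exact good_rot (s1 _ _ _ _ h1 h2 (by linarith) ha)
    · exact good_rot (good_rot (good_rot (s1 _ _ _ _ h1 h2 (by linarith) (by linarith))))
    · exact good_rot (good_rot (s1 _ _ _ _ h1 h2 (by linarith) (by linarith)))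
  have s3 : ∀ c1 c2 a b : ℝ, 5120 ≤ c2 → Good c1 c2 a b := by
    intro c1 c2 a b h2
    rcases le_total 5120 c1 with h | h
    · exact s2 _ _ _ _ h h2
    · exact good_rho (s2 _ _ _ _ (by linarith) h2)
  rcases le_total 5120 c2 with h | h
  · exact s3 _ _ _ _ h
  · rcases le_total 5120 c1 with h' | h'
    · exact good_swap (s3 _ _ _ _ h')
    · exact good_rho (good_swap (s3 _ _ _ _ (by linarith)))

end Pool.Agent.P.MP_53fdf1_co
end

-- part Pool.Agent.P.MP_53fdf1_co.Space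
section

set_option autoImplicit false

open MeasureTheory Set

namespace Pool.Agent.P.MP_53fdf1_co

def crd (j : Fin 3) (X : Fin 3 → ℝ) : ℝ × ℝ × ℝ := (X j, X (j.succAbove 0), X (j.succAbove 1))

theorem crd_mp (j : Fin 3) : MeasurePreserving (crd j) volume volume :=
  ((MeasurePreserving.id volume).prod (volume_preserving_finTwoArrow ℝ)).comp
    (volume_preserving_piFinSuccAbove (fun _ : Fin 3 => ℝ) j)

def slab (j : Fin 3) (Z : Set ℝ) (S : Set (ℝ × ℝ)) : Set (Fin 3 → ℝ) := crd j ⁻¹' (Z ×ˢ S)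

theorem vol_slab (j : Fin 3) {Z : Set ℝ} {S : Set (ℝ × ℝ)} (hZ : MeasurableSet Z) (hS : MeasurableSet S) :
    volume (slab j Z S) = volume Z * volume S := by
  rw [slab, (crd_mp j).measure_preimage (hZ.prod hS).nullMeasurableSet, Measure.volume_eq_prod,
    Measure.prod_prod]

theorem meas_slab (j : Fin 3) {Z : Set ℝ} {S : Set (ℝ × ℝ)} (hZ : MeasurableSet Z) (hS : MeasurableSet S) :
    MeasurableSet (slab j Z S) := (crd_mp j).measurable (hZ.prod hS)

def iv (K : ℕ) : Set ℝ := Ioo ((1024 * K : ℕ) : ℝ) ((1024 * K + 1024 : ℕ) : ℝ)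

def cell (j : Fin 3) (K I J : ℕ) : Set (Fin 3 → ℝ) :=
  slab j (iv K) (box (1024 * I) (1024 * I + 1024) (1024 * J) (1024 * J + 1024))

theorem meas_iv (K : ℕ) : MeasurableSet (iv K) := measurableSet_Ioo

theorem vol_iv (K : ℕ) : volume (iv K) = ENNReal.ofReal 1024 := by
  rw [iv, Real.volume_Ioo]; congr 1; push_cast; ring

theorem vol_cell (j : Fin 3) (K I J : ℕ) : volume (cell j K I J) = ENNReal.ofReal (2 ^ 30) := by
  rw [cell, vol_slab j (meas_iv K) (meas_box _ _ _ _), vol_box]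
  have e : ∀ I : ℕ, ((1024 * I + 1024 : ℕ) : ℝ) - ((1024 * I : ℕ) : ℝ) = 1024 := fun I => by
    push_cast; ring
  rw [e, e, vol_iv, ← ENNReal.ofReal_mul (by norm_num), ← ENNReal.ofReal_mul (by norm_num)]
  norm_num

noncomputable def mass3 (j : Fin 3) (D : Set (Fin 3 → ℝ)) : ℝ :=
  ∑ K ∈ Finset.range 10, ∑ I ∈ Finset.range 10, ∑ J ∈ Finset.range 10,
    (T10 K I J : ℝ) * volume.real (D ∩ cell j K I J)

theorem cell_one (K I J : ℕ) : cell 1 K I J = cell 0 I K J := by
  ext X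
  simp only [cell, slab, crd, box, iv, mem_preimage, mem_prod]
  exact and_left_comm

theorem cell_two (K I J : ℕ) : cell 2 K I J = cell 1 J I K := by
  ext X
  simp only [cell, slab, crd, box, iv, mem_preimage, mem_prod]
  exact ⟨fun h => ⟨h.2.2, h.2.1, h.1⟩, fun h => ⟨h.2.2, h.2.1, h.1⟩⟩

theorem mass3_one (D : Set (Fin 3 → ℝ)) : mass3 1 D = mass3 0 D := by
  unfold mass3
  rw [Finset.sum_comm]
  refine Finset.sum_congr rfl fun I _ => Finset.sum_congr rfl fun K _ =>
    Finset.sum_congr rfl fun J _ => ?_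
  rw [cell_one, T10, T10, add_comm (al K)]

theorem mass3_two (D : Set (Fin 3 → ℝ)) : mass3 2 D = mass3 1 D := by
  unfold mass3
  rw [Finset.sum_comm]
  conv_rhs => rw [Finset.sum_comm]
  refine Finset.sum_congr rfl fun I _ => ?_
  rw [Finset.sum_comm]
  refine Finset.sum_congr rfl fun K _ => Finset.sum_congr rfl fun J _ => ?_
  rw [cell_two, T10, T10]
  congr 3
  ring

theorem mass3_eq (j : Fin 3) (D : Set (Fin 3 → ℝ)) : mass3 j D = mass3 0 D := by
  fin_cases j
  · rfl
  · exact mass3_one D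
  · exact (mass3_two D).trans (mass3_one D)

theorem mass3_slab (j : Fin 3) {Z : Set ℝ} {S : Set (ℝ × ℝ)} (hZ : Z = Ioo (-1024) 3072 ∨ Z = Ioo 7168 11264)
    (hS : MeasurableSet S) : 1024 * mass2 S ≤ mass3 0 (slab j Z S) := by
  have mZ : MeasurableSet Z := by rcases hZ with rfl | rfl <;> exact measurableSet_Ioo
  have e : ∀ K I J, volume.real (slab j Z S ∩ cell j K I J) = volume.real (Z ∩ iv K) * arc S I J := by
    intro K I J
    rw [cell, slab, slab, ← preimage_inter, prod_inter_prod, ← slab, Measure.real,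
      vol_slab j (mZ.inter (meas_iv K)) (hS.inter (meas_box _ _ _ _)), ENNReal.toReal_mul]
    rfl
  have f : ∀ K, iv K ⊆ Z → volume.real (Z ∩ iv K) = 1024 := fun K h => by
    rw [inter_eq_right.2 h, Measure.real, vol_iv, ENNReal.toReal_ofReal (by norm_num)]
  rw [← mass3_eq j, mass2, Finset.mul_sum, mass3]
  conv_rhs => rw [Finset.sum_comm]
  refine Finset.sum_le_sum fun I _ => ?_
  rw [Finset.sum_comm, Finset.mul_sum]
  refine Finset.sum_le_sum fun J _ => ?_
  simp only [e, ← mul_assoc, ← Finset.sum_mul]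
  refine mul_le_mul_of_nonneg_right ?_ measureReal_nonneg
  have p : ∀ K, 0 ≤ (T10 K I J : ℝ) * volume.real (Z ∩ iv K) := fun K => by positivity
  simp only [Finset.sum_range_succ, Finset.sum_range_zero, W10, Nat.cast_add]
  rcases hZ with hZ | hZ
  · rw [f 0 (hZ ▸ Ioo_subset_Ioo (by norm_num) (by norm_num)),
      f 1 (hZ ▸ Ioo_subset_Ioo (by norm_num) (by norm_num)),
      f 2 (hZ ▸ Ioo_subset_Ioo (by norm_num) (by norm_num))]
    linarith [p 3, p 4, p 5, p 6, p 7, p 8, p 9]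
  · rw [f 7 (hZ ▸ Ioo_subset_Ioo (by norm_num) (by norm_num)),
      f 8 (hZ ▸ Ioo_subset_Ioo (by norm_num) (by norm_num)),
      f 9 (hZ ▸ Ioo_subset_Ioo (by norm_num) (by norm_num)),
      show T10 7 I J = T10 2 I J from rfl, show T10 8 I J = T10 1 I J from rfl,
      show T10 9 I J = T10 0 I J from rfl]
    linarith [p 0, p 1, p 2, p 3, p 4, p 5, p 6]

theorem tot_eq : ∑ K ∈ Finset.range 10, ∑ I ∈ Finset.range 10, ∑ J ∈ Finset.range 10, T10 K I J = 27048 := by
  decide +kernel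

theorem sum_mass3 {k : ℕ} (D : Fin k → Set (Fin 3 → ℝ)) (hD : ∀ i, MeasurableSet (D i))
    (hd : Pairwise fun i j => Disjoint (D i) (D j)) : ∑ i, mass3 0 (D i) ≤ 27048 * 2 ^ 30 := by
  have e : (27048 : ℝ) = ∑ K ∈ Finset.range 10, ∑ I ∈ Finset.range 10, ∑ J ∈ Finset.range 10,
      (T10 K I J : ℝ) := by exact_mod_cast tot_eq.symm
  unfold mass3
  rw [e, Finset.sum_comm, Finset.sum_mul]
  refine Finset.sum_le_sum fun K _ => ?_
  rw [Finset.sum_comm, Finset.sum_mul]
  refine Finset.sum_le_sum fun I _ => ?_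
  rw [Finset.sum_comm, Finset.sum_mul]
  refine Finset.sum_le_sum fun J _ => ?_
  rw [← Finset.mul_sum]
  refine mul_le_mul_of_nonneg_left ?_ (Nat.cast_nonneg _)
  have fin : volume (cell 0 K I J) ≠ ⊤ := by rw [vol_cell]; finiteness
  have mc : MeasurableSet (cell 0 K I J) := meas_slab 0 measurableSet_Ioo (meas_box _ _ _ _)
  rw [← measureReal_iUnion_fintype (fun i j h => (hd h).mono inter_subset_left inter_subset_left)
    (fun i => (hD i).inter mc) fun i => ne_top_of_le_ne_top fin (measure_mono inter_subset_right)]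
  refine (measureReal_mono (iUnion_subset fun i => inter_subset_right) fin).trans (le_of_eq ?_)
  rw [Measure.real, vol_cell, ENNReal.toReal_ofReal (by positivity)]

/-- a prism over a square that meets a face of the central cube -/
def IsPrism (D : Set (Fin 3 → ℝ)) : Prop :=
  ∃ (j : Fin 3) (Z : Set ℝ) (c1 c2 a b : ℝ), (Z = Ioo (-1024) 3072 ∨ Z = Ioo 7168 11264) ∧
    a ^ 2 + b ^ 2 = 1 ∧ Meet c1 c2 a b ∧ D = slab j Z (Sq c1 c2 a b)

theorem count_le {k : ℕ} (D : Fin k → Set (Fin 3 → ℝ)) (hD : ∀ i, IsPrism (D i))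
    (hd : Pairwise fun i j => Disjoint (D i) (D j)) : k ≤ 26 := by
  have m : ∀ i, MeasurableSet (D i) := fun i => by
    obtain ⟨j, Z, c1, c2, a, b, hZ, -, -, e⟩ := hD i
    rw [e]
    exact meas_slab j (by rcases hZ with rfl | rfl <;> exact measurableSet_Ioo)
      (open_Sq _ _ _ _).measurableSet
  have b : ∀ i, (2202932630228537 / 2 ^ 11 : ℝ) ≤ mass3 0 (D i) := fun i => by
    obtain ⟨j, Z, c1, c2, a, b, hZ, hn, hM, e⟩ := hD i
    have h1 := mass3_slab j hZ (open_Sq c1 c2 a b).measurableSet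
    have h2 := good_all c1 c2 a b hn hM
    rw [e]
    linarith
  have h := (Finset.sum_le_sum fun i (_ : i ∈ Finset.univ) => b i).trans (sum_mass3 D m hd)
  rw [Finset.sum_const, Finset.card_univ, Fintype.card_fin, nsmul_eq_mul] at h
  by_contra hk
  have : (27 : ℝ) ≤ k := by exact_mod_cast not_le.1 hk
  linarith

end Pool.Agent.P.MP_53fdf1_co
end

-- part Pool.Agent.P.MP_53fdf1_co.Contact
section

set_option autoImplicit false

open MeasureTheory Set Module
open scoped RealInnerProductSpace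

namespace Pool.Agent.P.MP_53fdf1_co

abbrev E3 : Type := EuclideanSpace ℝ (Fin 3)

theorem null_line {n m : E3} (hn : ⟪n, n⟫ = 1) (hm : ⟪m, m⟫ = 1) (h : ⟪n, m⟫ ^ 2 ≠ 1) (c d : ℝ) :
    μH[2] {y : E3 | ⟪n, y⟫ = c ∧ ⟪m, y⟫ = d} = 0 := by
  rcases eq_empty_or_nonempty {y : E3 | ⟪n, y⟫ = c ∧ ⟪m, y⟫ = d} with e | ⟨y0, h1, h2⟩
  · rw [e, measure_empty]
  have li : LinearIndependent ℝ ![n, m] := by
    rw [LinearIndependent.pair_iff]
    intro s t hst
    have a := congrArg (fun z => ⟪n, z⟫) hst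
    have b := congrArg (fun z => ⟪m, z⟫) hst
    simp only [inner_add_right, inner_smul_right, inner_zero_right, hn, hm, real_inner_comm n m] at a b
    have k : (1 : ℝ) - ⟪n, m⟫ ^ 2 ≠ 0 := fun k => h (by linarith)
    exact ⟨(mul_eq_zero.1 (show s * (1 - ⟪n, m⟫ ^ 2) = 0 by linear_combination a - ⟪n, m⟫ * b)).resolve_right k,
      (mul_eq_zero.1 (show t * (1 - ⟪n, m⟫ ^ 2) = 0 by linear_combination b - ⟪n, m⟫ * a)).resolve_right k⟩
  obtain ⟨K, hK⟩ : ∃ K : Submodule ℝ E3, K = (Submodule.span ℝ (range ![n, m]))ᗮ := ⟨_, rfl⟩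
  have fr : finrank ℝ K = 1 := by
    have a := Submodule.finrank_add_finrank_orthogonal (Submodule.span ℝ (range ![n, m]))
    rw [finrank_span_eq_card li, finrank_euclideanSpace, Fintype.card_fin, Fintype.card_fin, ← hK] at a
    omega
  have lip : LipschitzWith 1 fun k : K => y0 + (k : E3) :=
    LipschitzWith.of_dist_le_mul fun a b => by simp [Subtype.dist_eq]
  have dm : dimH (range fun k : K => y0 + (k : E3)) < (2 : NNReal) := by
    refine lip.dimH_range_le.trans_lt ?_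
    rw [Real.dimH_univ_eq_finrank, fr]
    norm_num
  have z := hausdorffMeasure_of_dimH_lt dm
  rw [NNReal.coe_ofNat] at z
  refine measure_mono_null (fun y hy => ?_) z
  refine ⟨⟨y - y0, ?_⟩, by simp⟩
  rw [hK, Submodule.mem_orthogonal]
  intro u hu
  induction hu using Submodule.span_induction with
  | mem x hx =>
    obtain ⟨i, rfl⟩ := hx
    fin_cases i
    · simp [inner_sub_right, hy.1, h1]
    · simp [inner_sub_right, hy.2, h2]
  | zero => simp
  | add x z _ _ a b => rw [inner_add_left, a, b, add_zero]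
  | smul r x _ a => rw [real_inner_smul_left, a, mul_zero]

def Act (n : E3) (c : ℝ) (y : E3) : Prop := ⟪n, y⟫ + c = 0 ∨ ⟪n, y⟫ + c = 1

theorem ae_par {v w : Fin 3 → E3} (hv : ∀ i, ⟪v i, v i⟫ = 1) (hw : ∀ i, ⟪w i, w i⟫ = 1) (q r : Fin 3 → ℝ) :
    ∀ᵐ y ∂(μH[2] : Measure E3), ∀ i k, Act (v i) (q i) y → Act (w k) (r k) y → ⟪v i, w k⟫ ^ 2 = 1 := by
  refine ae_all_iff.2 fun i => ae_all_iff.2 fun k => ?_
  by_cases h : ⟪v i, w k⟫ ^ 2 = 1
  · exact Filter.Eventually.of_forall fun _ _ _ => h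
  have n := fun c d => measure_eq_zero_iff_ae_notMem.1 (null_line (hv i) (hw k) h c d)
  filter_upwards [n (-q i) (-r k), n (-q i) (1 - r k), n (1 - q i) (-r k), n (1 - q i) (1 - r k)]
    with y a b c d h1 h2
  exfalso
  rcases h1 with h1 | h1 <;> rcases h2 with h2 | h2
  · exact a ⟨by linarith, by linarith⟩
  · exact b ⟨by linarith, by linarith⟩
  · exact c ⟨by linarith, by linarith⟩
  · exact d ⟨by linarith, by linarith⟩

def Cb (f : Fin 3 → E3) (p : Fin 3 → ℝ) : Set E3 := {y | ∀ i, ⟪f i, y⟫ + p i ∈ Icc (0 : ℝ) 1}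

def Op (f : Fin 3 → E3) (p : Fin 3 → ℝ) : Set E3 := {y | ∀ i, ⟪f i, y⟫ + p i ∈ Ioo (0 : ℝ) 1}

theorem Op_sub (f : Fin 3 → E3) (p : Fin 3 → ℝ) : Op f p ⊆ interior (Cb f p) := by
  refine interior_maximal (fun y hy i => Ioo_subset_Icc_self (hy i)) ?_
  unfold Op
  rw [ofPred_forall]
  exact isOpen_iInter_of_finite fun i => isOpen_Ioo.preimage (by fun_prop)

theorem front_sub {f : Fin 3 → E3} {p : Fin 3 → ℝ} {y : E3} (h : y ∈ frontier (Cb f p)) :
    y ∈ Cb f p ∧ ∃ i, Act (f i) (p i) y := by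
  have c : IsClosed (Cb f p) := by
    unfold Cb
    rw [ofPred_forall]
    exact isClosed_iInter fun i => isClosed_Icc.preimage (by fun_prop)
  have m : y ∈ Cb f p := c.frontier_subset h
  refine ⟨m, ?_⟩
  by_contra hh
  refine h.2 (Op_sub f p fun i => ⟨lt_of_le_of_ne (m i).1 fun e => hh ⟨i, Or.inl e.symm⟩,
    lt_of_le_of_ne (m i).2 fun e => hh ⟨i, Or.inr e⟩⟩)

noncomputable def eb (i : Fin 3) : E3 := EuclideanSpace.single i 1

theorem eb_inner (i : Fin 3) (y : E3) : ⟪eb i, y⟫ = y i := by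
  simp [eb, EuclideanSpace.inner_single_left]

theorem inner_split (j : Fin 3) (u z : E3) :
    ⟪u, z⟫ = u j * z j + u (j.succAbove 0) * z (j.succAbove 0) + u (j.succAbove 1) * z (j.succAbove 1) := by
  rw [PiLp.inner_apply, Fin.sum_univ_succAbove _ j, Fin.sum_univ_two]
  simp only [RCLike.inner_apply, conj_trivial]
  ring

noncomputable def sc (X : Fin 3 → ℝ) : E3 := WithLp.toLp 2 fun k => (X k - 3072) / 4096

theorem contact {f : Fin 3 → E3} {p : Fin 3 → ℝ} (h1 : ∀ i, ⟪f i, f i⟫ = 1)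
    (h0 : ∀ i k, i ≠ k → ⟪f i, f k⟫ = 0) (hd : Disjoint (interior (Cb eb 0)) (interior (Cb f p)))
    (hpos : 0 < μH[2] (frontier (Cb eb 0) ∩ frontier (Cb f p))) :
    ∃ D, IsPrism D ∧ ∀ X ∈ D, sc X ∈ interior (Cb f p) := by
  have e1 : ∀ i, ⟪eb i, eb i⟫ = 1 := fun i => by rw [eb_inner]; simp [eb]
  obtain ⟨y, ⟨yG, yC⟩, p1, p2, p3⟩ := Measure.exists_mem_of_measure_ne_zero_of_ae hpos.ne'
    (ae_restrict_of_ae ((ae_par e1 e1 0 0).and ((ae_par e1 h1 0 p).and (ae_par h1 h1 p p))))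
  obtain ⟨mG, j, aj⟩ := front_sub yG
  obtain ⟨mC, i, ai⟩ := front_sub yC
  have s2 : f i j ^ 2 = 1 := by simpa only [eb_inner] using p2 j i aj ai
  have oG : ∀ k, k ≠ j → y k ∈ Ioo (0 : ℝ) 1 := fun k hk => by
    have n : ¬ Act (eb k) ((0 : Fin 3 → ℝ) k) y := fun a => by
      have := p1 k j a aj
      rw [eb_inner] at this
      simp [eb, hk] at this
    have m := mG k
    simp only [Act, eb_inner, Pi.zero_apply, add_zero, not_or] at n m
    exact ⟨lt_of_le_of_ne m.1 (Ne.symm n.1), lt_of_le_of_ne m.2 n.2⟩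
  have oC : ∀ k, k ≠ i → ⟪f k, y⟫ + p k ∈ Ioo (0 : ℝ) 1 := fun k hk => by
    have n : ¬ Act (f k) (p k) y := fun a => by
      have := p3 k i a ai
      rw [h0 k i hk] at this
      norm_num at this
    simp only [Act, not_or] at n
    exact ⟨lt_of_le_of_ne (mC k).1 (Ne.symm n.1), lt_of_le_of_ne (mC k).2 n.2⟩
  have n1 := h1 i
  rw [inner_split j] at n1
  have z0 : f i (j.succAbove 0) = 0 := by nlinarith
  have z1 : f i (j.succAbove 1) = 0 := by nlinarith
  have fi : ∀ z : E3, ⟪f i, z⟫ = f i j * z j := fun z => by rw [inner_split j, z0, z1]; ring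
  have zk : ∀ k, k ≠ i → f k j = 0 := fun k hk => by
    have := h0 i k hk.symm
    rw [fi] at this
    linear_combination f i j * this - f k j * s2
  have fk : ∀ k, k ≠ i → ∀ z : E3, ⟪f k, z⟫ =
      f k (j.succAbove 0) * z (j.succAbove 0) + f k (j.succAbove 1) * z (j.succAbove 1) :=
    fun k hk z => by rw [inner_split j, zk k hk]; ring
  have out : f i j / 2 + p i ≠ 1 / 2 := fun hin => by
    refine disjoint_left.1 hd (Op_sub _ _ (a := y + (1 / 2 - y j) • eb j) fun k => ?_) (Op_sub _ _ fun k => ?_)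
    · rw [eb_inner]
      by_cases hk : k = j
      · subst hk; simp [eb]; norm_num
      · simpa [eb, hk] using oG k hk
    · rw [inner_add_right, inner_smul_right, real_inner_comm (eb j), eb_inner]
      by_cases hk : k = i
      · subst hk
        rw [fi]
        constructor <;> linarith
      · simpa [zk k hk] using oC k hk
  simp only [Act, eb_inner, Pi.zero_apply, add_zero, fi] at aj ai
  have sj : f i j = 1 ∨ f i j = -1 := sq_eq_one_iff.1 s2
  obtain ⟨Z, hZ, hZ'⟩ : ∃ Z : Set ℝ, (Z = Ioo (-1024) 3072 ∨ Z = Ioo 7168 11264) ∧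
      ∀ x ∈ Z, f i j * ((x - 3072) / 4096) + p i ∈ Ioo (0 : ℝ) 1 := by
    rcases aj with aj | aj
    · refine ⟨_, Or.inl rfl, fun x hx => ?_⟩
      obtain ⟨x1, x2⟩ := hx
      rcases sj with s | s <;> rcases ai with ai | ai <;> rw [s, aj] at ai <;> rw [s] at out ⊢
      · exact absurd (by linarith) out
      · constructor <;> linarith
      · constructor <;> linarith
      · exact absurd (by linarith) out
    · refine ⟨_, Or.inr rfl, fun x hx => ?_⟩
      obtain ⟨x1, x2⟩ := hx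
      rcases sj with s | s <;> rcases ai with ai | ai <;> rw [s, aj] at ai <;> rw [s] at out ⊢
      · constructor <;> linarith
      · exact absurd (by linarith) out
      · exact absurd (by linarith) out
      · constructor <;> linarith
  have k0 : i.succAbove 0 ≠ i := Fin.succAbove_ne i 0
  have k1 : i.succAbove 1 ≠ i := Fin.succAbove_ne i 1
  have g0 := h1 (i.succAbove 0)
  have g1 := h1 (i.succAbove 1)
  have g2 := h0 (i.succAbove 0) (i.succAbove 1) (by simp)
  have F0 := fk _ k0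
  have F1 := fk _ k1
  rw [F0] at g0 g2
  rw [F1] at g1
  generalize f (i.succAbove 0) (j.succAbove 0) = a at *
  generalize f (i.succAbove 0) (j.succAbove 1) = b at *
  generalize f (i.succAbove 1) (j.succAbove 0) = a' at *
  generalize f (i.succAbove 1) (j.succAbove 1) = b' at *
  set P := p (i.succAbove 0) - 1 / 2 with hP
  set R := (a * b' - b * a') * (p (i.succAbove 1) - 1 / 2) with hR
  have ep : |a * b' - b * a'| = 1 := by
    rw [← sq_eq_sq₀ (abs_nonneg _) zero_le_one, sq_abs]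
    linear_combination (a' * a' + b' * b') * g0 + g1 - (a * a' + b * b') * g2
  have E0 : ∀ u v : ℝ, |a * (4096 * u + 3072 - (3072 - 4096 * (a * P - b * R))) +
      b * (4096 * v + 3072 - (3072 - 4096 * (b * P + a * R)))| =
      4096 * |a * u + b * v + p (i.succAbove 0) - 1 / 2| := fun u v => by
    rw [← abs_of_pos (show (0 : ℝ) < 4096 by norm_num), ← abs_mul, abs_of_pos (show (0 : ℝ) < 4096 by norm_num)]
    congr 1
    linear_combination 4096 * P * g0 + 4096 * hP
  have E1 : ∀ u v : ℝ, |a * (4096 * v + 3072 - (3072 - 4096 * (b * P + a * R))) -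
      b * (4096 * u + 3072 - (3072 - 4096 * (a * P - b * R)))| =
      4096 * |a' * u + b' * v + p (i.succAbove 1) - 1 / 2| := fun u v => by
    have e : |(a * b' - b * a') * (4096 * (a' * u + b' * v + p (i.succAbove 1) - 1 / 2))| =
        4096 * |a' * u + b' * v + p (i.succAbove 1) - 1 / 2| := by
      rw [abs_mul, ep, one_mul, abs_mul, abs_of_pos (show (0 : ℝ) < 4096 by norm_num)]
    rw [← e]
    congr 1
    linear_combination 4096 * R * g0 + 4096 * hR - 4096 * (a * v - b * u) * g1 +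
      4096 * (a' * v - b' * u) * g2
  refine ⟨_, ⟨j, Z, 3072 - 4096 * (a * P - b * R), 3072 - 4096 * (b * P + a * R), a, b, hZ,
    by linarith, ?_, rfl⟩, fun X hX => Op_sub _ _ ?_⟩
  · have u := oG _ (Fin.succAbove_ne j 0)
    have v := oG _ (Fin.succAbove_ne j 1)
    have c0 := oC _ k0
    have c1 := oC _ k1
    rw [F0] at c0
    rw [F1] at c1
    refine ⟨4096 * y (j.succAbove 0) + 3072, 4096 * y (j.succAbove 1) + 3072, by linarith [u.1],
      by linarith [u.2], by linarith [v.1], by linarith [v.2], ?_, ?_⟩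
    · rw [E0]
      linarith [abs_le.2 (show -(1 / 2 : ℝ) ≤ _ ∧ a * y (j.succAbove 0) + b * y (j.succAbove 1) +
        p (i.succAbove 0) - 1 / 2 ≤ 1 / 2 from ⟨by linarith [c0.1], by linarith [c0.2]⟩)]
    · rw [E1]
      linarith [abs_le.2 (show -(1 / 2 : ℝ) ≤ _ ∧ a' * y (j.succAbove 0) + b' * y (j.succAbove 1) +
        p (i.succAbove 1) - 1 / 2 ≤ 1 / 2 from ⟨by linarith [c1.1], by linarith [c1.2]⟩)]
  · obtain ⟨x0, x1, x2⟩ := hX
    have A0 := E0 ((X (j.succAbove 0) - 3072) / 4096) ((X (j.succAbove 1) - 3072) / 4096)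
    have A1 := E1 ((X (j.succAbove 0) - 3072) / 4096) ((X (j.succAbove 1) - 3072) / 4096)
    have r : ∀ x : ℝ, 4096 * ((x - 3072) / 4096) + 3072 = x := fun x => by ring
    rw [r, r] at A0 A1
    simp only [crd] at x0 x1 x2
    rw [A0] at x1
    rw [A1] at x2
    have B0 := abs_lt.1 (show |_| < (1 / 2 : ℝ) by linarith only [x1] :
      |a * ((X (j.succAbove 0) - 3072) / 4096) + b * ((X (j.succAbove 1) - 3072) / 4096) +
        p (i.succAbove 0) - 1 / 2| < 1 / 2)
    have B1 := abs_lt.1 (show |_| < (1 / 2 : ℝ) by linarith only [x2] :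
      |a' * ((X (j.succAbove 0) - 3072) / 4096) + b' * ((X (j.succAbove 1) - 3072) / 4096) +
        p (i.succAbove 1) - 1 / 2| < 1 / 2)
    refine (Fin.forall_iff_succAbove i).2 ⟨?_, Fin.forall_fin_two.2 ⟨?_, ?_⟩⟩
    · rw [fi]; exact hZ' _ x0
    · rw [F0]; exact ⟨by simp only [sc]; linarith [B0.1], by simp only [sc]; linarith [B0.2]⟩
    · rw [F1]; exact ⟨by simp only [sc]; linarith [B1.1], by simp only [sc]; linarith [B1.2]⟩

theorem frame (ψ : E3 ≃ᵢ E3) : ∃ (f : Fin 3 → E3) (p : Fin 3 → ℝ), (∀ i, ⟪f i, f i⟫ = 1) ∧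
    (∀ i k, i ≠ k → ⟪f i, f k⟫ = 0) ∧ ψ '' Cb eb 0 = Cb f p := by
  set A := ψ.symm.toRealAffineIsometryEquiv with hA
  refine ⟨fun i => A.linearIsometryEquiv.symm (eb i), fun i => A 0 i, fun i => ?_, fun i k h => ?_, ?_⟩
  · rw [LinearIsometryEquiv.inner_map_map, eb_inner]; simp [eb]
  · rw [LinearIsometryEquiv.inner_map_map, eb_inner]; simp [eb, h]
  · rw [← ψ.preimage_symm]
    ext y
    have e : ψ.symm y = A.linearIsometryEquiv y + A 0 := by
      have := A.map_vadd 0 y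
      rw [vadd_eq_add, vadd_eq_add, add_zero] at this
      exact this
    simp only [Cb, mem_preimage, mem_ofPred, e, eb_inner, Pi.zero_apply, add_zero, PiLp.add_apply,
      LinearIsometryEquiv.inner_map_eq_flip, LinearIsometryEquiv.symm_symm]

theorem main (φ : E3 ≃ᵢ E3) {k : ℕ} (ψ : Fin k → E3 ≃ᵢ E3) (Q : Set E3)
    (hQ : Q = {x | ∀ i, x i ∈ Icc (0 : ℝ) 1})
    (h1 : ∀ i, Disjoint (interior (φ '' Q)) (interior (ψ i '' Q)))
    (h2 : Pairwise fun i j => Disjoint (interior (ψ i '' Q)) (interior (ψ j '' Q)))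
    (h3 : ∀ i, 0 < μH[2] (frontier (φ '' Q) ∩ frontier (ψ i '' Q))) : k ≤ 26 := by
  have eQ : Q = Cb eb 0 := by
    rw [hQ]; ext y; simp [Cb, eb_inner]
  have key : ∀ i, ∃ D, IsPrism D ∧ ∀ X ∈ D, φ (sc X) ∈ interior (ψ i '' Q) := fun i => by
    obtain ⟨f, p, a, b, c⟩ := frame ((ψ i).trans φ.symm)
    have e : ψ i '' Q = φ '' Cb f p := by
      rw [← c, eQ, image_image]; simp
    have hi : ∀ S : Set E3, interior (φ '' S) = φ '' interior S := fun S =>
      (φ.toHomeomorph.image_interior S).symm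
    have hf : ∀ S : Set E3, frontier (φ '' S) = φ '' frontier S := fun S =>
      (φ.toHomeomorph.image_frontier S).symm
    have d := h1 i
    have m := h3 i
    rw [e, eQ] at d m
    rw [hi, hi, disjoint_image_iff φ.injective] at d
    rw [hf, hf, ← image_inter φ.injective, φ.hausdorffMeasure_image] at m
    obtain ⟨D, hD, hX⟩ := contact a b d m
    exact ⟨D, hD, fun X h => by rw [e, hi]; exact mem_image_of_mem _ (hX X h)⟩
  choose D hD hX using key
  exact count_le D hD fun i j h => disjoint_left.2 fun X a b => disjoint_left.1 (h2 h) (hX i X a) (hX j X b)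

end Pool.Agent.P.MP_53fdf1_co
end
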